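import Mathlib
import Pool.Agent.Lib_helper50.HK.DefsD

set_option autoImplicit false

namespace HK

open MeasureTheory QG

theorem osc_of_pos (n : ℕ) [NeZero n] {a : Ev n → ℝ} (ha : 0 < fh n a) (v : Od n) :
    osc (loc (cn n) a v) ≤ 2 := by
  by_contra hcon
  push Not at hcon
  have h0 : wh (loc (cn n) a v) = 0 := by
    rw [wh]
    exact max_eq_left (by linarith)
  have h1 : wt wh (cn n) 0 a = 0 := by
    rw [wt, Finset.prod_eq_zero (Finset.mem_univ v) h0, zero_mul]
  rw [fh, h1, zero_div] at ha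
  exact lt_irrefl _ ha

theorem df_osc {t : Fin 4 → ℝ} (h : osc t ≤ 2) (i j : Fin 4) : t i - t j ≤ 2 := by
  have h1 : t i ≤ Finset.univ.sup' Finset.univ_nonempty t :=
    Finset.le_sup' t (Finset.mem_univ i)
  have h2 : Finset.univ.inf' Finset.univ_nonempty t ≤ t j :=
    Finset.inf'_le t (Finset.mem_univ j)
  rw [osc] at h
  linarith

theorem df_abs {t : Fin 4 → ℝ} (h : osc t ≤ 2) (i j : Fin 4) : |t i - t j| ≤ 2 := by
  rw [abs_le]
  have h1 := df_osc h i j
  have h2 := df_osc h j i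
  constructor <;> linarith

/-- the corners of the cell `cc n z i j` -/
theorem df_cc (n : ℕ) (z : Ev n) (i j : ℤ) :
    cn n (cc n z i j) 0 = ch n z i j ∧ cn n (cc n z i j) 1 = ch n z (i + 1) (j + 1) ∧
    cn n (cc n z i j) 2 = ch n z (i + 1) j ∧ cn n (cc n z i j) 3 = ch n z i (j + 1) := by
  refine ⟨?_, ?_, ?_, ?_⟩
  all_goals
    refine Subtype.ext (Prod.ext ?_ ?_)
    all_goals
      simp [cn, cc, ch, dir]
      try ring

theorem df_step (n : ℕ) [NeZero n] {a : Ev n → ℝ} (ha : ∀ v, osc (loc (cn n) a v) ≤ 2) (z : Ev n)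
    (i j : ℤ) (e f : ℤ) (he : e = 0 ∨ e = 1 ∨ e = -1) (hf : f = 0 ∨ f = 1 ∨ f = -1) :
    |a (ch n z (i + e) (j + f)) - a (ch n z i j)| ≤ 2 := by
  have key : ∀ i j : ℤ, ∀ c c', |a (cn n (cc n z i j) c) - a (cn n (cc n z i j) c')| ≤ 2 :=
    fun i j c c' => df_abs (ha (cc n z i j)) c c'
  rcases he with rfl | rfl | rfl <;> rcases hf with rfl | rfl | rfl
  · simp
  · have h := key i j 3 0
    rw [(df_cc n z i j).1, (df_cc n z i j).2.2.2] at h
    simpa using h
  · have h := key i (j - 1) 0 3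
    rw [(df_cc n z i (j - 1)).1, (df_cc n z i (j - 1)).2.2.2, sub_add_cancel] at h
    simpa [sub_eq_add_neg] using h
  · have h := key i j 2 0
    rw [(df_cc n z i j).1, (df_cc n z i j).2.2.1] at h
    simpa using h
  · have h := key i j 1 0
    rw [(df_cc n z i j).1, (df_cc n z i j).2.1] at h
    exact h
  · have h := key i (j - 1) 2 3
    rw [(df_cc n z i (j - 1)).2.2.1, (df_cc n z i (j - 1)).2.2.2, sub_add_cancel] at h
    simpa [sub_eq_add_neg] using h
  · have h := key (i - 1) j 0 2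
    rw [(df_cc n z (i - 1) j).1, (df_cc n z (i - 1) j).2.2.1, sub_add_cancel] at h
    simpa [sub_eq_add_neg] using h
  · have h := key (i - 1) j 3 2
    rw [(df_cc n z (i - 1) j).2.2.2, (df_cc n z (i - 1) j).2.2.1, sub_add_cancel] at h
    simpa [sub_eq_add_neg] using h
  · have h := key (i - 1) (j - 1) 0 1
    rw [(df_cc n z (i - 1) (j - 1)).1, (df_cc n z (i - 1) (j - 1)).2.1, sub_add_cancel,
      sub_add_cancel] at h
    simpa [sub_eq_add_neg] using h

theorem df_chart (n : ℕ) [NeZero n] {a : Ev n → ℝ} (ha : ∀ v, osc (loc (cn n) a v) ≤ 2) (z : Ev n)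
    (N : ℕ) : ∀ i j i' j' : ℤ, (i' - i).natAbs ≤ N → (j' - j).natAbs ≤ N →
      |a (ch n z i' j') - a (ch n z i j)| ≤ 2 * N := by
  induction N with
  | zero =>
    intro i j i' j' hi hj
    have h1 : i' = i := by omega
    have h2 : j' = j := by omega
    rw [h1, h2]
    simp
  | succ N ih =>
    intro i j i' j' hi hj
    obtain ⟨e, he, he2⟩ : ∃ e : ℤ, (e = 0 ∨ e = 1 ∨ e = -1) ∧ (i' - (i + e)).natAbs ≤ N := by
      rcases lt_trichotomy i' i with h | h | h
      · exact ⟨-1, by omega, by omega⟩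
      · exact ⟨0, by omega, by omega⟩
      · exact ⟨1, by omega, by omega⟩
    obtain ⟨f, hf, hf2⟩ : ∃ f : ℤ, (f = 0 ∨ f = 1 ∨ f = -1) ∧ (j' - (j + f)).natAbs ≤ N := by
      rcases lt_trichotomy j' j with h | h | h
      · exact ⟨-1, by omega, by omega⟩
      · exact ⟨0, by omega, by omega⟩
      · exact ⟨1, by omega, by omega⟩
    have h1 := ih (i + e) (j + f) i' j' he2 hf2
    have h2 := df_step n ha z i j e f he hf
    have h3 := abs_sub_le (a (ch n z i' j')) (a (ch n z (i + e) (j + f))) (a (ch n z i j))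
    push_cast
    linarith

/-- fields with oscillation at most `2` in the cells are `1`-Lipschitz -/
theorem lip_pos (n : ℕ) [NeZero n] {a : Ev n → ℝ} (ha : ∀ v, osc (loc (cn n) a v) ≤ 2) (z : Ev n)
    {s t : ℤ × ℤ} (hs : evn s) (ht : evn t) : |a (es n z s) - a (es n z t)| ≤ d1 s t := by
  obtain ⟨r, hr⟩ := hs
  obtain ⟨q, hq⟩ := ht
  have e1 : (s.1 + s.2) / 2 = r := by omega
  have e2 : (s.1 - s.2) / 2 = r - s.2 := by omega
  have e3 : (t.1 + t.2) / 2 = q := by omega
  have e4 : (t.1 - t.2) / 2 = q - t.2 := by omega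
  rw [es, es, e1, e2, e3, e4]
  have h := df_chart n ha z (max (r - q).natAbs ((r - s.2) - (q - t.2)).natAbs) q (q - t.2) r
    (r - s.2) (le_max_left _ _) (le_max_right _ _)
  refine h.trans ?_
  have h2 : ((2 * (max (r - q).natAbs ((r - s.2) - (q - t.2)).natAbs) : ℕ) : ℤ) = d1 s t := by
    rw [d1, Int.abs_eq_natAbs, Int.abs_eq_natAbs]
    omega
  have h3 : (2 : ℝ) * (max (r - q).natAbs ((r - s.2) - (q - t.2)).natAbs : ℕ) =
      ((((2 * (max (r - q).natAbs ((r - s.2) - (q - t.2)).natAbs) : ℕ) : ℤ)) : ℝ) := by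
    rw [Int.cast_natCast]
    push_cast
    ring
  rw [h3, h2]

end HK
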