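import Mathlib
import Pool.Agent.Lib_helper50.HK.DefsD

set_option autoImplicit false

namespace HK

open MeasureTheory QG

theorem dg_es (n : ℕ) (z : Ev n) {s : ℤ × ℤ} (hs : evn s) :
    (es n z s).1 = z.1 + ((s.1 : ZMod (2 * n)), (s.2 : ZMod (2 * n))) := by
  obtain ⟨r, hr⟩ := hs
  have h1 : (s.1 + s.2) / 2 + (s.1 - s.2) / 2 = s.1 := by omega
  have h2 : (s.1 + s.2) / 2 - (s.1 - s.2) / 2 = s.2 := by omega
  simp only [es, ch, h1, h2]

theorem dg_sm (m : ℕ) (x : ℤ × ℤ) : evn (sm m x) := by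
  refine ⟨m * x.1 + m * x.2, ?_⟩
  simp only [sm]
  ring

theorem es_zero (n : ℕ) (z : Ev n) : es n z (0, 0) = z := by
  apply Subtype.ext
  rw [dg_es n z (by simp [evn])]
  simp

theorem es_ke (n m : ℕ) (k x : ℤ × ℤ) : es n (ke n m k) (sm m x) = ke n m (k + x) := by
  apply Subtype.ext
  rw [dg_es n _ (dg_sm m x)]
  simp only [ke, sm, Prod.fst_add, Prod.snd_add, Prod.mk_add_mk]
  push_cast
  ext
  · simp only
    ring
  · simp only
    ring

theorem ke_mem {n m : ℕ} {k x : ℤ × ℤ} (hk : k ∈ LamI n m R0) (hx : di 0 x ≤ R0) :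
    k + x ∈ Lam n m := by
  simp only [LamI, Lam, Finset.mem_product, Finset.mem_Icc, Prod.fst_add, Prod.snd_add] at hk ⊢
  simp only [di, Prod.fst_zero, Prod.snd_zero] at hx
  generalize n / (8 * m) = N0 at hk ⊢
  generalize 5 * n / (8 * m) = N1 at hk ⊢
  generalize R0 = R at hk hx
  omega

theorem dg_eq {n : ℕ} [NeZero n] {a b : ℤ} (h : (a : ZMod (2 * n)) = (b : ZMod (2 * n)))
    (hab : |b - a| < 2 * n) : a = b := by
  have h1 := (ZMod.intCast_eq_intCast_iff_dvd_sub a b (2 * n)).1 h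
  have h2 : b - a = 0 := by
    apply Int.eq_zero_of_abs_lt_dvd h1
    push_cast
    exact hab
  omega

/-- the planar coordinates are injective near `z` -/
theorem es_inj {n m : ℕ} [NeZero n] (hm : 1 ≤ m) (hn : 64 * m * (R0 + 10) ≤ n) {z : Ev n}
    {s t : ℤ × ℤ} (hs : evn s) (ht : evn t) (hs2 : di 0 s ≤ rQ m + 2) (ht2 : di 0 t ≤ rQ m + 2)
    (h : es n z s = es n z t) : s = t := by
  have h1 := congrArg Subtype.val h
  rw [dg_es n z hs, dg_es n z ht] at h1
  have h2 := Prod.ext_iff.1 (add_left_cancel h1)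
  simp only at h2
  simp only [di, Prod.fst_zero, Prod.snd_zero, rQ] at hs2 ht2
  simp only [R0] at hn
  have hb : 64 * 10010 * m ≤ n := by nlinarith
  have e1 : s.1 = t.1 := dg_eq h2.1 (by rw [abs_lt]; constructor <;> omega)
  have e2 : s.2 = t.2 := dg_eq h2.2 (by rw [abs_lt]; constructor <;> omega)
  exact Prod.ext e1 e2

theorem dg_bd (n m : ℕ) : 8 * (m * (n / (8 * m))) ≤ n ∧ 8 * (m * (5 * n / (8 * m))) ≤ 5 * n := by
  have h1 := Nat.mul_div_le n (8 * m)
  have h2 := Nat.mul_div_le (5 * n) (8 * m)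
  constructor
  · calc 8 * (m * (n / (8 * m))) = 8 * m * (n / (8 * m)) := by ring
      _ ≤ n := h1
  · calc 8 * (m * (5 * n / (8 * m))) = 8 * m * (5 * n / (8 * m)) := by ring
      _ ≤ 5 * n := h2

/-- sites near `ke n m k` that are not on the lattice -/
theorem es_nonK {n m : ℕ} [NeZero n] (hm : 1 ≤ m) (hn : 64 * m * (R0 + 10) ≤ n) {k : ℤ × ℤ}
    (hk : k ∈ LamI n m R0) {s : ℤ × ℤ} (hs : evn s) (hs2 : di 0 s ≤ rQ m)
    (h : ∀ x, s ≠ sm m x) : es n (ke n m k) s ∈ nonK n m := by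
  obtain ⟨b0, b1⟩ := dg_bd n m
  have he : (es n (ke n m k) s).1 = (((2 * m * k.1 : ℤ) : ZMod (2 * n)) + (s.1 : ZMod (2 * n)),
      ((2 * m * k.2 : ℤ) : ZMod (2 * n)) + (s.2 : ZMod (2 * n))) := by
    rw [dg_es n _ hs]
    rfl
  simp only [R0] at hn
  have hb : 64 * 10010 * m ≤ n := by nlinarith
  simp only [LamI, Finset.mem_product, Finset.mem_Icc, R0] at hk
  simp only [di, Prod.fst_zero, Prod.snd_zero, rQ] at hs2
  obtain ⟨⟨k1, k2⟩, k3, k4⟩ := hk
  have hm0 : (0 : ℤ) ≤ m := by positivity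
  have c0 : 8 * ((m : ℤ) * ((n / (8 * m) : ℕ) : ℤ)) ≤ n := by exact_mod_cast b0
  have c1 : 8 * ((m : ℤ) * ((5 * n / (8 * m) : ℕ) : ℤ)) ≤ 5 * n := by exact_mod_cast b1
  have p1 := mul_le_mul_of_nonneg_left k1 hm0
  have p2 := mul_le_mul_of_nonneg_left k2 hm0
  have p3 := mul_le_mul_of_nonneg_left k3 hm0
  have p4 := mul_le_mul_of_nonneg_left k4 hm0
  rw [mul_sub] at p1 p2 p3 p4
  -- bounds for the coordinates
  have u1 : -(n : ℤ) ≤ 4 * (2 * m * k.1 + s.1) - 4000 * m := by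
    push_cast at p1 ⊢
    have : -(16000 * (m : ℤ)) ≤ s.1 := by omega
    linarith
  have u2 : 4 * (2 * m * k.1 + s.1) + 4000 * m ≤ 5 * (n : ℤ) := by
    push_cast at p2 ⊢
    have : s.1 ≤ 16000 * (m : ℤ) := by omega
    linarith
  have u3 : -(n : ℤ) ≤ 4 * (2 * m * k.2 + s.2) - 4000 * m := by
    push_cast at p3 ⊢
    have : -(16000 * (m : ℤ)) ≤ s.2 := by omega
    linarith
  have u4 : 4 * (2 * m * k.2 + s.2) + 4000 * m ≤ 5 * (n : ℤ) := by
    push_cast at p4 ⊢
    have : s.2 ≤ 16000 * (m : ℤ) := by omega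
    linarith
  simp only [nonK, Finset.mem_filter, Finset.mem_univ, true_and]
  constructor
  · intro h0
    have h1 := congrArg Subtype.val h0
    rw [he] at h1
    have h2 := (Prod.ext_iff.1 h1).1
    simp only [pp, dg] at h2
    have h3 : ((2 * m * k.1 + s.1 : ℤ) : ZMod (2 * n)) = (((n + n / 2 : ℕ) : ℤ) : ZMod (2 * n)) := by
      rw [Int.cast_add, h2, Int.cast_natCast]
    have h4 := dg_eq h3 (by rw [abs_lt]; constructor <;> omega)
    omega
  · intro k' hk' h0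
    simp only [Lam, Finset.mem_product, Finset.mem_Icc] at hk'
    obtain ⟨⟨l1, l2⟩, l3, l4⟩ := hk'
    have q1 := mul_le_mul_of_nonneg_left l1 hm0
    have q2 := mul_le_mul_of_nonneg_left l2 hm0
    have q3 := mul_le_mul_of_nonneg_left l3 hm0
    have q4 := mul_le_mul_of_nonneg_left l4 hm0
    rw [mul_neg] at q1 q3
    have w1 : -(n : ℤ) ≤ 4 * (2 * m * k'.1) := by linarith
    have w2 : 4 * (2 * m * k'.1) ≤ 5 * (n : ℤ) := by linarith
    have w3 : -(n : ℤ) ≤ 4 * (2 * m * k'.2) := by linarith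
    have w4 : 4 * (2 * m * k'.2) ≤ 5 * (n : ℤ) := by linarith
    have h1 := congrArg Subtype.val h0
    rw [he] at h1
    simp only [ke] at h1
    have h2 := Prod.ext_iff.1 h1
    simp only at h2
    have h3 : ((2 * m * k'.1 : ℤ) : ZMod (2 * n)) = ((2 * m * k.1 + s.1 : ℤ) : ZMod (2 * n)) := by
      rw [h2.1]
      push_cast
      rfl
    have h4 : ((2 * m * k'.2 : ℤ) : ZMod (2 * n)) = ((2 * m * k.2 + s.2 : ℤ) : ZMod (2 * n)) := by
      rw [h2.2]
      push_cast
      rfl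
    have hn0 : (0 : ℤ) < n := by
      have := Nat.pos_of_ne_zero (NeZero.ne n)
      exact_mod_cast this
    have h5 := dg_eq h3 (by rw [abs_lt]; constructor <;> linarith)
    have h6 := dg_eq h4 (by rw [abs_lt]; constructor <;> linarith)
    apply h (k' - k)
    simp only [sm, Prod.fst_sub, Prod.snd_sub]
    exact Prod.ext (by simp only; linarith) (by simp only; linarith)

theorem es_card (n m : ℕ) [NeZero n] (k : ℤ × ℤ) : (QN n m k).card ≤ (2 * rQ m + 1) ^ 2 := by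
  classical
  have hsub : QN n m k ⊆ ((Finset.Icc (-(rQ m : ℤ)) (rQ m)) ×ˢ
      (Finset.Icc (-(rQ m : ℤ)) (rQ m))).image (es n (ke n m k)) := by
    intro y hy
    simp only [QN, Finset.mem_filter] at hy
    obtain ⟨-, s, -, hs, rfl⟩ := hy
    apply Finset.mem_image_of_mem
    simp only [di, Prod.fst_zero, Prod.snd_zero] at hs
    simp only [Finset.mem_product, Finset.mem_Icc]
    omega
  refine (Finset.card_le_card hsub).trans (Finset.card_image_le.trans ?_)
  rw [Finset.card_product, Int.card_Icc, ← pow_two]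
  apply Nat.pow_le_pow_left
  omega

end HK
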