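import Mathlib
import Pool.Agent.Lib_helper50.HK.DefsD

set_option autoImplicit false

namespace HK

open MeasureTheory QG

theorem di_es (n m : ℕ) (k : ℤ × ℤ) {s : ℤ × ℤ} (hs : evn s) : (es n (ke n m k) s).1 =
    (((2 * m * k.1 + s.1 : ℤ) : ZMod (2 * n)), ((2 * m * k.2 + s.2 : ℤ) : ZMod (2 * n))) := by
  obtain ⟨r, hr⟩ := hs
  have h1 : (s.1 + s.2) / 2 = r := by omega
  have h2 : (s.1 - s.2) / 2 = r - s.2 := by omega
  rw [es, h1, h2]
  simp only [ch, ke]
  refine Prod.ext ?_ ?_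
  · show ((2 * m * k.1 : ℤ) : ZMod (2 * n)) + ((r + (r - s.2) : ℤ) : ZMod (2 * n)) = _
    rw [← Int.cast_add]
    congr 1
    linarith
  · show ((2 * m * k.2 : ℤ) : ZMod (2 * n)) + ((r - (r - s.2) : ℤ) : ZMod (2 * n)) = _
    rw [← Int.cast_add]
    congr 1
    ring

theorem di_cn (n m : ℕ) (k : ℤ × ℤ) (i : Fin 4) (j : ℕ) (c : Fin 4) {s : ℤ × ℤ} (hs : evn s)
    (h1 : (2 * j + 1) * (dz i).1 + (dz c).1 = (s.1 : ℤ))
    (h2 : (2 * j + 1) * (dz i).2 + (dz c).2 = (s.2 : ℤ)) :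
    cn n (sc n m k i j) c = es n (ke n m k) s := by
  refine Subtype.ext ?_
  rw [di_es n m k hs]
  have hd : dir n c = (((dz c).1 : ZMod (2 * n)), ((dz c).2 : ZMod (2 * n))) := by
    fin_cases c <;> simp [dir, dz]
  simp only [cn, sc]
  rw [hd]
  refine Prod.ext ?_ ?_
  · show ((2 * m * k.1 + (2 * j + 1) * (dz i).1 : ℤ) : ZMod (2 * n)) + ((dz c).1 : ZMod (2 * n)) = _
    rw [← Int.cast_add]
    congr 1
    linarith
  · show ((2 * m * k.2 + (2 * j + 1) * (dz i).2 : ℤ) : ZMod (2 * n)) + ((dz c).2 : ZMod (2 * n)) = _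
    rw [← Int.cast_add]
    congr 1
    linarith

/-- the four corners -/
theorem di_corners (n m : ℕ) (k : ℤ × ℤ) (i : Fin 4) (j : ℕ) :
    cn n (sc n m k i j) i = es n (ke n m k) (rt i (2 * (j : ℤ) + 2, 0)) ∧
    cn n (sc n m k i j) (op i) = es n (ke n m k) (rt i (2 * (j : ℤ), 0)) ∧
    ∀ c, c ≠ i → c ≠ op i → ∃ u : ℤ, (u = 1 ∨ u = -1) ∧
      cn n (sc n m k i j) c = es n (ke n m k) (rt i (2 * (j : ℤ) + 1, u)) := by
  have e0 : ∀ r s : ℤ, r + r = s → Even s := fun r s h => ⟨r, h.symm⟩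
  fin_cases i
  · refine ⟨?_, ?_, fun c h1 h2 => ?_⟩
    · exact di_cn n m k 0 j 0 (e0 (-(j : ℤ) - 1) _ (by simp [rt]; ring)) (by simp [rt, dz]; ring)
        (by simp [rt, dz])
    · exact di_cn n m k 0 j 1 (e0 (-(j : ℤ)) _ (by simp [rt]; ring)) (by simp [rt, dz])
        (by simp [rt, dz])
    · fin_cases c
      · exact absurd rfl h1
      · exact absurd rfl h2
      · exact ⟨1, Or.inl rfl, di_cn n m k 0 j 2 (e0 (-(j : ℤ)) _ (by simp [rt]; ring))
          (by simp [rt, dz]) (by simp [rt, dz])⟩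
      · exact ⟨-1, Or.inr rfl, di_cn n m k 0 j 3 (e0 (-(j : ℤ) - 1) _ (by simp [rt]; ring))
          (by simp [rt, dz]) (by simp [rt, dz])⟩
  · refine ⟨?_, ?_, fun c h1 h2 => ?_⟩
    · exact di_cn n m k 1 j 1 (e0 ((j : ℤ) + 1) _ (by simp [rt]; ring)) (by simp [rt, dz]; ring)
        (by simp [rt, dz])
    · exact di_cn n m k 1 j 0 (e0 (j : ℤ) _ (by simp [rt]; ring)) (by simp [rt, dz])
        (by simp [rt, dz])
    · fin_cases c
      · exact absurd rfl h2
      · exact absurd rfl h1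
      · exact ⟨1, Or.inl rfl, di_cn n m k 1 j 2 (e0 ((j : ℤ) + 1) _ (by simp [rt]; ring))
          (by simp [rt, dz]) (by simp [rt, dz])⟩
      · exact ⟨-1, Or.inr rfl, di_cn n m k 1 j 3 (e0 (j : ℤ) _ (by simp [rt]; ring))
          (by simp [rt, dz]) (by simp [rt, dz])⟩
  · refine ⟨?_, ?_, fun c h1 h2 => ?_⟩
    · exact di_cn n m k 2 j 2 (e0 ((j : ℤ) + 1) _ (by simp [rt]; ring)) (by simp [rt, dz])
        (by simp [rt, dz]; ring)
    · exact di_cn n m k 2 j 3 (e0 (j : ℤ) _ (by simp [rt]; ring)) (by simp [rt, dz])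
        (by simp [rt, dz])
    · fin_cases c
      · exact ⟨-1, Or.inr rfl, di_cn n m k 2 j 0 (e0 (j : ℤ) _ (by simp [rt]; ring))
          (by simp [rt, dz]) (by simp [rt, dz])⟩
      · exact ⟨1, Or.inl rfl, di_cn n m k 2 j 1 (e0 ((j : ℤ) + 1) _ (by simp [rt]; ring))
          (by simp [rt, dz]) (by simp [rt, dz])⟩
      · exact absurd rfl h1
      · exact absurd rfl h2
  · refine ⟨?_, ?_, fun c h1 h2 => ?_⟩
    · exact di_cn n m k 3 j 3 (e0 (-(j : ℤ) - 1) _ (by simp [rt]; ring)) (by simp [rt, dz])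
        (by simp [rt, dz]; ring)
    · exact di_cn n m k 3 j 2 (e0 (-(j : ℤ)) _ (by simp [rt]; ring)) (by simp [rt, dz])
        (by simp [rt, dz])
    · fin_cases c
      · exact ⟨-1, Or.inr rfl, di_cn n m k 3 j 0 (e0 (-(j : ℤ) - 1) _ (by simp [rt]; ring))
          (by simp [rt, dz]) (by simp [rt, dz])⟩
      · exact ⟨1, Or.inl rfl, di_cn n m k 3 j 1 (e0 (-(j : ℤ)) _ (by simp [rt]; ring))
          (by simp [rt, dz]) (by simp [rt, dz])⟩
      · exact absurd rfl h2
      · exact absurd rfl h1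

/-- margins in planar coordinates give the pattern -/
theorem mar_pat {n m : ℕ} {k : ℤ × ℤ} {i : Fin 4} {a : Ev n → ℝ} {δ : ℝ} (hδ : 0 < δ)
    (h : Mar m δ (fun s => a (es n (ke n m k) (rt i s)))) : PatO n m a k i := by
  intro j hj
  obtain ⟨c1, c2, c3⟩ := di_corners n m k i j
  rcases h j hj with h | h
  · left
    have h1 := h 1 (Or.inl rfl)
    simp only at h h1
    constructor
    · intro c hc
      by_cases hc2 : c = op i
      · rw [hc2, c1, c2]
        linarith [h1.1, h1.2]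
      · obtain ⟨u, hu, hcu⟩ := c3 c hc hc2
        rw [hcu, c1]
        linarith [(h u hu).1]
    · intro c hc
      by_cases hc2 : c = i
      · rw [hc2, c1, c2]
        linarith [h1.1, h1.2]
      · obtain ⟨u, hu, hcu⟩ := c3 c hc2 hc
        rw [hcu, c2]
        linarith [(h u hu).2]
  · right
    have h1 := h 1 (Or.inl rfl)
    simp only at h h1
    constructor
    · intro c hc
      by_cases hc2 : c = i
      · rw [hc2, c1, c2]
        linarith [h1.1, h1.2]
      · obtain ⟨u, hu, hcu⟩ := c3 c hc2 hc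
        rw [hcu, c2]
        linarith [(h u hu).1]
    · intro c hc
      by_cases hc2 : c = op i
      · rw [hc2, c1, c2]
        linarith [h1.1, h1.2]
      · obtain ⟨u, hu, hcu⟩ := c3 c hc hc2
        rw [hcu, c1]
        linarith [(h u hu).2]

theorem di_am {t : Fin 4 → ℝ} {i : Fin 4} (h : ∀ c, c ≠ i → t c < t i) : am t = i := by
  have hle : ∀ j, t j ≤ t i := fun j => by
    by_cases hj : j = i
    · rw [hj]
    · exact (h j hj).le
  have hno : ∀ c, c ≠ i → ¬ ∀ j, t j ≤ t c := fun c hc hcon =>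
    absurd (hcon i) (not_le.2 (h c hc))
  unfold am
  fin_cases i
  · exact if_pos hle
  · rw [if_neg (hno 0 (by decide))]
    exact if_pos hle
  · rw [if_neg (hno 0 (by decide)), if_neg (hno 1 (by decide))]
    exact if_pos hle
  · rw [if_neg (hno 0 (by decide)), if_neg (hno 1 (by decide)), if_neg (hno 2 (by decide))]
    rfl

theorem pato_pat {n m : ℕ} {k : ℤ × ℤ} {i : Fin 4} {a : Ev n → ℝ} (h : PatO n m a k i) :
    Pat n m a k i := by
  intro j hj
  rcases h j hj with ⟨h1, h2⟩ | ⟨h1, h2⟩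
  · left
    refine ⟨di_am fun c hc => h1 c hc, di_am fun c hc => ?_⟩
    simp only [loc]
    linarith [h2 c hc]
  · right
    refine ⟨di_am fun c hc => h1 c hc, di_am fun c hc => ?_⟩
    simp only [loc]
    linarith [h2 c hc]

theorem pato_meas (n m : ℕ) [NeZero n] (k : ℤ × ℤ) (i : Fin 4) :
    MeasurableSet {a : Ev n → ℝ | PatO n m a k i} := by
  have hc : ∀ y y' : Ev n, MeasurableSet {a : Ev n → ℝ | a y < a y'} := fun y y' =>
    measurableSet_lt (measurable_pi_apply y) (measurable_pi_apply y')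
  have hall : ∀ (p : Fin 4 → Prop) (f g : Fin 4 → Ev n),
      MeasurableSet {a : Ev n → ℝ | ∀ c, p c → a (f c) < a (g c)} := by
    intro p f g
    rw [Set.ofPred_forall]
    refine MeasurableSet.iInter fun c => ?_
    by_cases h : p c
    · simp only [h, true_implies]
      exact hc _ _
    · simp only [h, false_implies, Set.ofPred_true]
      exact MeasurableSet.univ
  have hset : {a : Ev n → ℝ | PatO n m a k i} = ⋂ j ∈ Finset.range m, {a : Ev n → ℝ |
    ((∀ c, c ≠ i → a (cn n (sc n m k i j) c) < a (cn n (sc n m k i j) i)) ∧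
      ∀ c, c ≠ op i → a (cn n (sc n m k i j) (op i)) < a (cn n (sc n m k i j) c)) ∨
    ((∀ c, c ≠ op i → a (cn n (sc n m k i j) c) < a (cn n (sc n m k i j) (op i))) ∧
      ∀ c, c ≠ i → a (cn n (sc n m k i j) i) < a (cn n (sc n m k i j) c))} := by
    ext a
    simp only [Set.mem_ofPred_eq, PatO, Set.mem_iInter, Finset.mem_range]
  rw [hset]
  refine MeasurableSet.biInter (Finset.countable_toSet _) fun j _ => ?_
  refine MeasurableSet.union (MeasurableSet.inter ?_ ?_) (MeasurableSet.inter ?_ ?_)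
  · exact hall (fun c => c ≠ i) (fun c => cn n (sc n m k i j) c) (fun _ => cn n (sc n m k i j) i)
  · exact hall (fun c => c ≠ op i) (fun _ => cn n (sc n m k i j) (op i))
      (fun c => cn n (sc n m k i j) c)
  · exact hall (fun c => c ≠ op i) (fun c => cn n (sc n m k i j) c)
      (fun _ => cn n (sc n m k i j) (op i))
  · exact hall (fun c => c ≠ i) (fun _ => cn n (sc n m k i j) i) (fun c => cn n (sc n m k i j) c)

end HK
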