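import Mathlib
import Pool.Agent.Lib_helper50.HK.DefsD

set_option autoImplicit false

namespace HK

open MeasureTheory QG

theorem da_tri (x y s : ℤ × ℤ) : (d1 x s : ℝ) ≤ d1 x y + d1 y s := by
  have h : d1 x s ≤ d1 x y + d1 y s := by
    unfold d1
    have h1 : |x.1 - s.1| ≤ |x.1 - y.1| + |y.1 - s.1| := by
      have := abs_add_le (x.1 - y.1) (y.1 - s.1)
      rwa [sub_add_sub_cancel] at this
    have h2 : |x.2 - s.2| ≤ |x.2 - y.2| + |y.2 - s.2| := by
      have := abs_add_le (x.2 - y.2) (y.2 - s.2)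
      rwa [sub_add_sub_cancel] at this
    linarith
  exact_mod_cast h

theorem da_comm (x y : ℤ × ℤ) : d1 x y = d1 y x := by
  unfold d1
  rw [abs_sub_comm x.1, abs_sub_comm x.2]

theorem da_self (x : ℤ × ℤ) : d1 x x = 0 := by
  unfold d1; simp

/-- extension of functions that are `1`-Lipschitz for the `l¹` distance -/
theorem mcshane (S : Set (ℤ × ℤ)) (f : ℤ × ℤ → ℝ)
    (hf : ∀ s ∈ S, ∀ t ∈ S, |f s - f t| ≤ d1 s t) :
    ∃ g : ℤ × ℤ → ℝ, (∀ s t, |g s - g t| ≤ d1 s t) ∧ ∀ s ∈ S, g s = f s := by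
  rcases S.eq_empty_or_nonempty with h0 | ⟨s0, hs0⟩
  · refine ⟨fun _ => 0, ?_, ?_⟩
    · intro s t
      rw [sub_zero, abs_zero]
      have : (0 : ℤ) ≤ d1 s t := by unfold d1; positivity
      exact_mod_cast this
    · intro s hs
      rw [h0] at hs
      exact absurd hs (Set.notMem_empty s)
  · have : Nonempty S := ⟨⟨s0, hs0⟩⟩
    have hb : ∀ x : ℤ × ℤ, BddBelow (Set.range (fun s : S => f s + (d1 x s : ℝ))) := by
      intro x
      refine ⟨f s0 - d1 x s0, ?_⟩
      rintro _ ⟨s, rfl⟩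
      have h1 := hf s s.2 s0 hs0
      have h2 := da_tri (s : ℤ × ℤ) x s0
      rw [da_comm (s : ℤ × ℤ) x] at h2
      have h3 := (abs_le.1 h1).1
      show f s0 - d1 x s0 ≤ f s + d1 x s
      linarith
    have key : ∀ x y : ℤ × ℤ, (⨅ s : S, (f s + (d1 x s : ℝ))) - d1 x y ≤
        ⨅ s : S, (f s + (d1 y s : ℝ)) := by
      intro x y
      apply le_ciInf
      intro s
      have h1 : (⨅ s : S, (f s + (d1 x s : ℝ))) ≤ f s + d1 x s := ciInf_le (hb x) s
      have h2 := da_tri x y s
      linarith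
    refine ⟨fun x => ⨅ s : S, (f s + (d1 x s : ℝ)), ?_, ?_⟩
    · intro s t
      have h1 := key s t
      have h2 := key t s
      rw [da_comm t s] at h2
      rw [abs_le]
      constructor <;> linarith
    · intro s hs
      apply le_antisymm
      · have h1 : (⨅ t : S, (f t + (d1 s t : ℝ))) ≤ f s + d1 s s :=
          ciInf_le (hb s) (⟨s, hs⟩ : S)
        rw [da_self] at h1
        simpa using h1
      · apply le_ciInf
        intro t
        have h1 := (abs_le.1 (hf s hs t t.2)).2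
        linarith

end HK
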