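import Mathlib
import Pool.Agent.Lib_helper50.HK.DefsD

set_option autoImplicit false

namespace HK

open MeasureTheory QG

/-- the distance to `4 ℤ` -/
def db_z (s : ℤ) : ℤ := min (s % 4) (4 - s % 4)

theorem db_lip (s t : ℤ) : |db_z s - db_z t| ≤ |s - t| := by
  have key : ∀ s t : ℤ, s ≤ t → |db_z s - db_z t| ≤ t - s := by
    intro s t h
    unfold db_z
    rw [abs_le]
    constructor
    · omega
    · omega
  rcases le_total s t with h | h
  · rw [abs_sub_comm s t, abs_of_nonneg (by omega : 0 ≤ t - s)]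
    exact key s t h
  · rw [abs_sub_comm (db_z s), abs_of_nonneg (by omega : 0 ≤ s - t)]
    exact key t s h

theorem db_bd (s : ℤ) : 0 ≤ db_z s ∧ db_z s ≤ 2 := by
  unfold db_z
  omega

theorem db_step (j : ℕ) :
    (db_z (2 * j + 1) - db_z (2 * j) = 1 ∧ db_z (2 * j + 2) - db_z (2 * j + 1) = 1) ∨
    (db_z (2 * j) - db_z (2 * j + 1) = 1 ∧ db_z (2 * j + 1) - db_z (2 * j + 2) = 1) := by
  unfold db_z
  omega

/-- profiles exist -/
theorem profile (m : ℕ) (hm : Even m) (v σ : ℝ) (hσ : |σ| ≤ 1 - ep) :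
    ∃ P : ℤ → ℝ, Prof m v σ P := by
  have hep : (0 : ℝ) < ep := by unfold ep; norm_num
  have hep1 : ep ≤ 1 := by unfold ep; norm_num
  by_cases hs : ep / 4 ≤ |σ|
  · refine ⟨fun s => v + σ * s, ?_, ?_, ?_, ?_, ?_⟩
    · simp
    · push_cast
      ring
    · intro s t
      have e : v + σ * (s : ℝ) - (v + σ * (t : ℝ)) = σ * ((s : ℝ) - t) := by ring
      rw [e, abs_mul]
      push_cast
      have h1 : |σ| ≤ 1 := by linarith
      nlinarith [abs_nonneg ((s : ℝ) - t)]
    · intro s _ _
      rw [sub_self, abs_zero]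
      exact hep.le
    · intro j _
      push_cast
      rcases le_or_gt 0 σ with h0 | h0
      · rw [abs_of_nonneg h0] at hs
        left
        constructor <;> linarith
      · rw [abs_of_neg h0] at hs
        right
        constructor <;> linarith
  · have hs' : |σ| < ep / 4 := not_le.1 hs
    obtain ⟨hs1, hs2⟩ := abs_lt.1 hs'
    refine ⟨fun s => v + σ * s + ep / 2 * (db_z s : ℝ), ?_, ?_, ?_, ?_, ?_⟩
    · have e : db_z 0 = 0 := by decide
      simp [e]
    · obtain ⟨r, hr⟩ := hm
      have e : db_z (2 * m) = 0 := by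
        unfold db_z
        omega
      rw [e]
      push_cast
      ring
    · intro s t
      have e : v + σ * (s : ℝ) + ep / 2 * (db_z s : ℝ) - (v + σ * (t : ℝ) + ep / 2 * (db_z t : ℝ)) =
        σ * ((s : ℝ) - t) + ep / 2 * ((db_z s : ℝ) - db_z t) := by ring
      rw [e]
      have h1 : |((db_z s : ℝ) - db_z t)| ≤ |(s : ℝ) - t| := by
        exact_mod_cast db_lip s t
      have h2 := abs_add_le (σ * ((s : ℝ) - t)) (ep / 2 * ((db_z s : ℝ) - db_z t))
      rw [abs_mul, abs_mul, abs_of_pos (by positivity : 0 < ep / 2)] at h2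
      push_cast
      refine h2.trans ?_
      nlinarith [abs_nonneg ((s : ℝ) - t), abs_nonneg σ]
    · intro s _ _
      obtain ⟨h1, h2⟩ := db_bd s
      have h1' : (0 : ℝ) ≤ db_z s := by exact_mod_cast h1
      have h2' : (db_z s : ℝ) ≤ 2 := by exact_mod_cast h2
      have e : v + σ * (s : ℝ) + ep / 2 * (db_z s : ℝ) - (v + σ * (s : ℝ)) =
        ep / 2 * (db_z s : ℝ) := by ring
      show |v + σ * (s : ℝ) + ep / 2 * (db_z s : ℝ) - (v + σ * (s : ℝ))| ≤ ep
      rw [e, abs_of_nonneg (by positivity)]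
      nlinarith
    · intro j _
      push_cast
      rcases db_step j with ⟨h1, h2⟩ | ⟨h1, h2⟩
      · left
        have h1' : (db_z (2 * j + 1) : ℝ) - db_z (2 * j) = 1 := by exact_mod_cast h1
        have h2' : (db_z (2 * j + 2) : ℝ) - db_z (2 * j + 1) = 1 := by exact_mod_cast h2
        constructor
        · have e : v + σ * (2 * (j : ℝ) + 1) + ep / 2 * (db_z (2 * j + 1) : ℝ) -
            (v + σ * (2 * (j : ℝ)) + ep / 2 * (db_z (2 * j) : ℝ)) =
            σ + ep / 2 * ((db_z (2 * j + 1) : ℝ) - db_z (2 * j)) := by ring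
          rw [e, h1']
          linarith
        · have e : v + σ * (2 * (j : ℝ) + 2) + ep / 2 * (db_z (2 * j + 2) : ℝ) -
            (v + σ * (2 * (j : ℝ) + 1) + ep / 2 * (db_z (2 * j + 1) : ℝ)) =
            σ + ep / 2 * ((db_z (2 * j + 2) : ℝ) - db_z (2 * j + 1)) := by ring
          rw [e, h2']
          linarith
      · right
        have h1' : (db_z (2 * j) : ℝ) - db_z (2 * j + 1) = 1 := by exact_mod_cast h1
        have h2' : (db_z (2 * j + 1) : ℝ) - db_z (2 * j + 2) = 1 := by exact_mod_cast h2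
        constructor
        · have e : v + σ * (2 * (j : ℝ)) + ep / 2 * (db_z (2 * j) : ℝ) -
            (v + σ * (2 * (j : ℝ) + 1) + ep / 2 * (db_z (2 * j + 1) : ℝ)) =
            -σ + ep / 2 * ((db_z (2 * j) : ℝ) - db_z (2 * j + 1)) := by ring
          rw [e, h1']
          linarith
        · have e : v + σ * (2 * (j : ℝ) + 1) + ep / 2 * (db_z (2 * j + 1) : ℝ) -
            (v + σ * (2 * (j : ℝ) + 2) + ep / 2 * (db_z (2 * j + 2) : ℝ)) =
            -σ + ep / 2 * ((db_z (2 * j + 1) : ℝ) - db_z (2 * j + 2)) := by ring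
          rw [e, h2']
          linarith

end HK
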