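import Mathlib
import Pool.Agent.Lib_helper50.HK.DefsD

set_option autoImplicit false

namespace HK

open MeasureTheory QG

theorem dc_hor (R : ℕ) (c : ℝ) (a : ℤ → ℤ → ℝ)
    (h : ∀ p b : ℤ, p.natAbs ≤ R → (p + 1).natAbs ≤ R → b.natAbs ≤ R →
      |a p b - a (p + 1) b| ≤ c) (n : ℕ) :
    ∀ p q b : ℤ, p.natAbs ≤ R → q.natAbs ≤ R → b.natAbs ≤ R → q = p + n →
      |a p b - a q b| ≤ c * n := by
  induction n with
  | zero =>
    intro p q b _ _ _ hq
    have : q = p := by rw [hq]; simp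
    rw [this, sub_self, abs_zero]
    simp
  | succ n ih =>
    intro p q b hp hq hb hpq
    have e : q = (p + n) + 1 := by rw [hpq]; push_cast; ring
    have hq' : (p + n).natAbs ≤ R := by omega
    have h1 := ih p (p + n) b hp hq' hb rfl
    have h2 := h (p + n) b hq' (by rw [← e]; exact hq) hb
    rw [← e] at h2
    have h3 := abs_sub_le (a p b) (a (p + n) b) (a q b)
    push_cast
    linarith

theorem dc_hor' (R : ℕ) (c : ℝ) (a : ℤ → ℤ → ℝ)
    (h : ∀ p b : ℤ, p.natAbs ≤ R → (p + 1).natAbs ≤ R → b.natAbs ≤ R →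
      |a p b - a (p + 1) b| ≤ c) (p q b : ℤ) (hp : p.natAbs ≤ R) (hq : q.natAbs ≤ R)
    (hb : b.natAbs ≤ R) : |a p b - a q b| ≤ c * ((|p - q| : ℤ) : ℝ) := by
  rcases le_total p q with hpq | hpq
  · have h1 := dc_hor R c a h (q - p).toNat p q b hp hq hb (by omega)
    have h2 : (((q - p).toNat : ℕ) : ℝ) = ((|p - q| : ℤ) : ℝ) := by
      have h3 : (((q - p).toNat : ℕ) : ℤ) = |p - q| := by
        rw [abs_of_nonpos (by omega)]
        omega
      exact_mod_cast h3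
    rw [← h2]
    exact h1
  · have h1 := dc_hor R c a h (p - q).toNat q p b hq hp hb (by omega)
    have h2 : (((p - q).toNat : ℕ) : ℝ) = ((|p - q| : ℤ) : ℝ) := by
      have h3 : (((p - q).toNat : ℕ) : ℤ) = |p - q| := by
        rw [abs_of_nonneg (by omega)]
        omega
      exact_mod_cast h3
    rw [← h2, abs_sub_comm]
    exact h1

/-- increments along paths in a square -/
theorem kpath (R : ℕ) (c : ℝ) (a : ℤ × ℤ → ℝ)
    (h : ∀ x y, nn x y → di 0 x ≤ R → di 0 y ≤ R → |a x - a y| ≤ c) {x y : ℤ × ℤ}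
    (hx : di 0 x ≤ R) (hy : di 0 y ≤ R) : |a x - a y| ≤ c * d1 x y := by
  obtain ⟨x1, x2⟩ := x
  obtain ⟨y1, y2⟩ := y
  have hdi : ∀ p b : ℤ, p.natAbs ≤ R → b.natAbs ≤ R → di 0 (p, b) ≤ R := by
    intro p b hp hb
    refine max_le ?_ ?_
    · show (0 - p).natAbs ≤ R
      omega
    · show (0 - b).natAbs ≤ R
      omega
  have hid : ∀ p b : ℤ, di 0 (p, b) ≤ R → p.natAbs ≤ R ∧ b.natAbs ≤ R := by
    intro p b hpb
    have h1 : (0 - p).natAbs ≤ R := (le_max_left _ _).trans hpb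
    have h2 : (0 - b).natAbs ≤ R := (le_max_right _ _).trans hpb
    omega
  obtain ⟨hx1, hx2⟩ := hid _ _ hx
  obtain ⟨hy1, hy2⟩ := hid _ _ hy
  have h1 := dc_hor' R c (fun p b => a (p, b)) (fun p b hp hp' hb => h (p, b) (p + 1, b) (by
    show |p - (p + 1)| + |b - b| = 1
    rw [sub_self, abs_zero, add_zero]
    have : p - (p + 1) = -1 := by ring
    rw [this]
    rfl) (hdi _ _ hp hb) (hdi _ _ hp' hb)) x1 y1 x2 hx1 hy1 hx2
  have h2 := dc_hor' R c (fun p b => a (b, p)) (fun p b hp hp' hb => h (b, p) (b, p + 1) (by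
    show |b - b| + |p - (p + 1)| = 1
    rw [sub_self, abs_zero, zero_add]
    have : p - (p + 1) = -1 := by ring
    rw [this]
    rfl) (hdi _ _ hb hp) (hdi _ _ hb hp')) x2 y2 y1 hx2 hy2 hy1
  have h3 := abs_sub_le (a (x1, x2)) (a (y1, x2)) (a (y1, y2))
  have h4 : (d1 (x1, x2) (y1, y2) : ℝ) = ((|x1 - y1| : ℤ) : ℝ) + ((|x2 - y2| : ℤ) : ℝ) := by
    unfold d1
    push_cast
    rfl
  rw [h4, mul_add]
  linarith

end HK
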