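import Mathlib
import Pool.Agent.Lib_helper50.HK.DefsD

set_option autoImplicit false

namespace HK

open MeasureTheory QG

/-- the distance to the strip is affine -/
theorem dd_aff (m : ℕ) (x : ℤ × ℤ) (s : ℤ) (hs0 : 0 ≤ s) (hs : s ≤ 2 * m) :
    ((d1 (sm m x) (s, 0) : ℤ) : ℝ) =
      (2 * m - s) * (d1 x (0, 0) : ℤ) + s * (d1 x (1, 0) : ℤ) := by
  have hz : d1 (sm m x) (s, 0) = (2 * m - s) * d1 x (0, 0) + s * d1 x (1, 0) := by
    have hm0 : (0 : ℤ) ≤ 2 * m := by positivity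
    simp only [d1, sm, sub_zero]
    rw [abs_mul, abs_of_nonneg hm0]
    rcases le_or_gt x.1 0 with h | h
    · have e1 : |2 * (m : ℤ) * x.1 - s| = s - 2 * m * x.1 := by
        rw [abs_of_nonpos (by nlinarith)]
        ring
      rw [e1, abs_of_nonpos h, abs_of_nonpos (by omega : x.1 - 1 ≤ 0)]
      ring
    · have e1 : |2 * (m : ℤ) * x.1 - s| = 2 * m * x.1 - s := by
        rw [abs_of_nonneg (by nlinarith)]
      rw [e1, abs_of_pos h, abs_of_nonneg (by omega : 0 ≤ x.1 - 1)]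
      ring
  rw [hz]
  push_cast
  ring

/-- values at the lattice and the profile -/
theorem strip_lin (m : ℕ) (hm : 1 ≤ m) (a : ℤ × ℤ → ℝ) (P : ℤ → ℝ) (σ : ℝ)
    (hP : Prof m (a (0, 0)) σ P) (ha : a (1, 0) = a (0, 0) + 2 * m * σ) (x : ℤ × ℤ)
    (h0 : |a x - a (0, 0)| ≤ (1 - ep) * (2 * m) * d1 x (0, 0))
    (h1 : |a x - a (1, 0)| ≤ (1 - ep) * (2 * m) * d1 x (1, 0)) (s : ℤ) (hs0 : 0 ≤ s)
    (hs : s ≤ 2 * m) : |a x - P s| ≤ (1 - ep) * d1 (sm m x) (s, 0) + ep := by
  rw [dd_aff m x s hs0 hs]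
  have hl := hP.lin s hs0 hs
  have hm' : (0 : ℝ) < 2 * m := by
    have : (1 : ℝ) ≤ m := by exact_mod_cast hm
    linarith
  have hs0' : (0 : ℝ) ≤ s := by exact_mod_cast hs0
  have hs' : (0 : ℝ) ≤ 2 * m - s := by
    have : (s : ℝ) ≤ 2 * m := by exact_mod_cast hs
    linarith
  have key : |2 * m * (a x - (a (0, 0) + σ * s))| ≤
      2 * m * ((1 - ep) * ((2 * m - s) * (d1 x (0, 0) : ℤ) + s * (d1 x (1, 0) : ℤ))) := by
    have e : 2 * m * (a x - (a (0, 0) + σ * s)) =
        (2 * m - s) * (a x - a (0, 0)) + s * (a x - a (1, 0)) := by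
      rw [ha]
      ring
    rw [e]
    calc |(2 * m - s) * (a x - a (0, 0)) + s * (a x - a (1, 0))|
        ≤ |(2 * m - s) * (a x - a (0, 0))| + |s * (a x - a (1, 0))| := abs_add_le _ _
      _ = (2 * m - s) * |a x - a (0, 0)| + s * |a x - a (1, 0)| := by
          rw [abs_mul, abs_mul, abs_of_nonneg hs', abs_of_nonneg hs0']
      _ ≤ (2 * m - s) * ((1 - ep) * (2 * m) * d1 x (0, 0)) +
          s * ((1 - ep) * (2 * m) * d1 x (1, 0)) := by gcongr
      _ = _ := by ring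
  rw [abs_mul, abs_of_pos hm'] at key
  have key2 := le_of_mul_le_mul_left key hm'
  calc |a x - P s| = |(a x - (a (0, 0) + σ * s)) - (P s - (a (0, 0) + σ * s))| := by
        congr 1
        ring
    _ ≤ |a x - (a (0, 0) + σ * s)| + |P s - (a (0, 0) + σ * s)| := abs_sub _ _
    _ ≤ _ := add_le_add key2 hl

/-- the lattice points and the strip -/
theorem strip_K (m : ℕ) (hm : 4000 ≤ m) (a : ℤ × ℤ → ℝ) (P : ℤ → ℝ) (σ : ℝ)
    (hP : Prof m (a (0, 0)) σ P) (ha : a (1, 0) = a (0, 0) + 2 * m * σ) (x : ℤ × ℤ)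
    (h0 : |a x - a (0, 0)| ≤ (1 - ep) * (2 * m) * d1 x (0, 0))
    (h1 : |a x - a (1, 0)| ≤ (1 - ep) * (2 * m) * d1 x (1, 0)) (s u : ℤ) (hs0 : 0 ≤ s)
    (hs : s ≤ 2 * m) (hu : |u| ≤ 1) : |a x - P s| ≤ d1 (sm m x) (s, u) := by
  have hlin := strip_lin m (by omega) a P σ hP ha x h0 h1 s hs0 hs
  have hep : ep = 1 / 2000 := rfl
  by_cases hx2 : x.2 = 0
  · have hge : (d1 (sm m x) (s, 0) : ℤ) ≤ d1 (sm m x) (s, u) := by
      simp only [d1, sm, hx2, mul_zero, sub_zero, abs_zero]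
      have := abs_nonneg (0 - u)
      linarith
    have hge' : ((d1 (sm m x) (s, 0) : ℤ) : ℝ) ≤ (d1 (sm m x) (s, u) : ℤ) := by exact_mod_cast hge
    by_cases hx0 : x.1 = 0
    · have hx : x = (0, 0) := Prod.ext hx0 hx2
      have hl := hP.lip 0 s
      rw [hP.zero] at hl
      rw [hx]
      rw [hx] at hge'
      refine hl.trans (le_trans (le_of_eq ?_) hge')
      simp [d1, sm]
    · by_cases hx1 : x.1 = 1
      · have hx : x = (1, 0) := Prod.ext hx1 hx2
        have hl := hP.lip (2 * m) s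
        rw [hP.last, ← ha] at hl
        rw [hx]
        rw [hx] at hge'
        refine hl.trans (le_trans (le_of_eq ?_) hge')
        simp [d1, sm]
      · have hD : (1 : ℤ) ≤ d1 (sm m x) (s, 0) := by
          simp only [d1, sm, hx2, mul_zero, sub_zero, abs_zero, add_zero]
          have hm1 : (4000 : ℤ) ≤ m := by exact_mod_cast hm
          rcases lt_or_gt_of_ne hx0 with h | h
          · have : 2 * (m : ℤ) * x.1 ≤ 2 * m * (-1) := by
              apply mul_le_mul_of_nonneg_left <;> omega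
            rw [abs_of_nonpos (by linarith)]
            linarith
          · have : 2 * (m : ℤ) * 2 ≤ 2 * m * x.1 := by
              apply mul_le_mul_of_nonneg_left <;> omega
            rw [abs_of_nonneg (by linarith)]
            linarith
        have hD' : (1 : ℝ) ≤ (d1 (sm m x) (s, 0) : ℤ) := by exact_mod_cast hD
        rw [hep] at hlin
        linarith
  · have hD : (8000 : ℤ) ≤ d1 (sm m x) (s, 0) := by
      simp only [d1, sm, sub_zero]
      have hm1 : (4000 : ℤ) ≤ m := by exact_mod_cast hm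
      have h2 : (1 : ℤ) ≤ |x.2| := Int.one_le_abs hx2
      have h3 : |2 * (m : ℤ) * x.2| = 2 * m * |x.2| := by
        rw [abs_mul, abs_of_nonneg (by positivity)]
      have h4 : 2 * (m : ℤ) * 1 ≤ 2 * m * |x.2| := by
        apply mul_le_mul_of_nonneg_left <;> omega
      have h5 := abs_nonneg (2 * (m : ℤ) * x.1 - s)
      linarith
    have hge : (d1 (sm m x) (s, 0) : ℤ) ≤ d1 (sm m x) (s, u) + 1 := by
      simp only [d1, sm, sub_zero]
      have h6 : |2 * (m : ℤ) * x.2| ≤ |2 * (m : ℤ) * x.2 - u| + |u| := by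
        calc |2 * (m : ℤ) * x.2| = |(2 * (m : ℤ) * x.2 - u) + u| := by
              congr 1
              ring
          _ ≤ _ := abs_add_le _ _
      linarith
    have hD' : (8000 : ℝ) ≤ (d1 (sm m x) (s, 0) : ℤ) := by exact_mod_cast hD
    have hge' : ((d1 (sm m x) (s, 0) : ℤ) : ℝ) ≤ (d1 (sm m x) (s, u) : ℤ) + 1 := by
      exact_mod_cast hge
    rw [hep] at hlin
    linarith

/-- far points and the strip; `b` is the value at `y` -/
theorem strip_far (m : ℕ) (hm : 4000 ≤ m) (a : ℤ × ℤ → ℝ) (P : ℤ → ℝ) (σ : ℝ)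
    (hP : Prof m (a (0, 0)) σ P) (ha : a (1, 0) = a (0, 0) + 2 * m * σ) (x : ℤ × ℤ)
    (h0 : |a x - a (0, 0)| ≤ (1 - ep) * (2 * m) * d1 x (0, 0))
    (h1 : |a x - a (1, 0)| ≤ (1 - ep) * (2 * m) * d1 x (1, 0)) (s u : ℤ) (hs0 : 0 ≤ s)
    (hs : s ≤ 2 * m) (hu : |u| ≤ 1) (y : ℤ × ℤ) (b : ℝ) (hy : rQ m < di 0 y)
    (hyx : d1 y (sm m x) ≤ 2 * m) (hb : |b - a x| ≤ 2 * m) :
    |b - P s| ≤ d1 y (s, u) := by
  have hlin := strip_lin m (by omega) a P σ hP ha x h0 h1 s hs0 hs
  have hep : ep = 1 / 2000 := rfl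
  have hm1 : (4000 : ℤ) ≤ m := by exact_mod_cast hm
  have hD : (d1 (sm m x) (s, 0) : ℤ) ≤ 2 * m + 1 + d1 y (s, u) := by
    simp only [d1] at hyx ⊢
    have t1 : |(sm m x).1 - s| ≤ |y.1 - (sm m x).1| + |y.1 - s| := by
      calc |(sm m x).1 - s| = |(y.1 - s) - (y.1 - (sm m x).1)| := by
            congr 1
            ring
        _ ≤ |y.1 - s| + |y.1 - (sm m x).1| := abs_sub _ _
        _ = _ := add_comm _ _
    have t2 : |(sm m x).2 - 0| ≤ |y.2 - (sm m x).2| + |y.2 - u| + |u| := by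
      calc |(sm m x).2 - 0| = |(y.2 - u) - (y.2 - (sm m x).2) + u| := by
            congr 1
            ring
        _ ≤ |(y.2 - u) - (y.2 - (sm m x).2)| + |u| := abs_add_le _ _
        _ ≤ |y.2 - u| + |y.2 - (sm m x).2| + |u| := by
            have := abs_sub (y.2 - u) (y.2 - (sm m x).2)
            linarith
        _ = _ := by ring
    linarith
  have hE : 15998 * (m : ℤ) ≤ d1 y (s, u) := by
    simp only [di, Prod.fst_zero, Prod.snd_zero, rQ] at hy
    simp only [d1]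
    have hu' := abs_le.1 hu
    rcases lt_max_iff.1 hy with h | h
    · have e1 : 15998 * (m : ℤ) ≤ |y.1 - s| := by
        rcases le_or_gt y.1 0 with h7 | h7
        · rw [abs_of_nonpos (by omega)]
          omega
        · rw [abs_of_nonneg (by omega)]
          omega
      have e2 := abs_nonneg (y.2 - u)
      linarith
    · have e1 : 15998 * (m : ℤ) ≤ |y.2 - u| := by
        rcases le_or_gt y.2 0 with h7 | h7
        · rw [abs_of_nonpos (by omega)]
          omega
        · rw [abs_of_nonneg (by omega)]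
          omega
      have e2 := abs_nonneg (y.1 - s)
      linarith
  have hD' : ((d1 (sm m x) (s, 0) : ℤ) : ℝ) ≤ 2 * m + 1 + (d1 y (s, u) : ℤ) := by
    exact_mod_cast hD
  have hE' : 15998 * (m : ℝ) ≤ (d1 y (s, u) : ℤ) := by exact_mod_cast hE
  have hm2 : (4000 : ℝ) ≤ m := by exact_mod_cast hm
  have htri : |b - P s| ≤ |b - a x| + |a x - P s| := by
    calc |b - P s| = |(b - a x) + (a x - P s)| := by
          congr 1
          ring
      _ ≤ _ := abs_add_le _ _
  rw [hep] at hlin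
  linarith

end HK
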