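import Mathlib
import Pool.Agent.Lib_helper50.HK.DefsD
import Pool.Agent.Lib_helper50.HK.W.da
import Pool.Agent.Lib_helper50.HK.W.db
import Pool.Agent.Lib_helper50.HK.W.dc
import Pool.Agent.Lib_helper50.HK.W.dd

set_option autoImplicit false

namespace HK

open MeasureTheory QG

theorem de_di (s : ℤ × ℤ) (r : ℕ) : di 0 s ≤ r ↔ |s.1| ≤ r ∧ |s.2| ≤ r := by
  unfold di
  simp only [Prod.fst_zero, Prod.snd_zero, Int.abs_eq_natAbs]
  omega

theorem de_symm (s t : ℤ × ℤ) : d1 s t = d1 t s := by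
  rw [d1, d1, abs_sub_comm s.1, abs_sub_comm s.2]

/-- the nearest lattice index -/
theorem de_near {m : ℕ} (hm : 1 ≤ m) (y : ℤ) : ∃ x : ℤ, |y - 2 * m * x| ≤ m := by
  refine ⟨(y + m) / (2 * m), ?_⟩
  have h1 := Int.emod_add_mul_ediv (y + m) (2 * m)
  have h2 := Int.emod_nonneg (y + m) (show (2 * (m : ℤ)) ≠ 0 by omega)
  have h3 := Int.emod_lt_of_pos (y + m) (show (0 : ℤ) < 2 * m by omega)
  rw [abs_le]
  constructor <;> linarith

/-- the planar pattern lemma -/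
theorem planar (m : ℕ) (hm : Even m) (hm2 : 4000 ≤ m) (A : ℤ × ℤ → ℝ)
    (hA : ∀ s t, evn s → evn t → |A s - A t| ≤ d1 s t)
    (hK : ∀ x y, nn x y → di 0 x ≤ R0 → di 0 y ≤ R0 →
      |A (sm m x) - A (sm m y)| ≤ (1 - ep) * (2 * m)) :
    ∃ ψ : ℤ × ℤ → ℝ, (∀ s t, |ψ s - ψ t| ≤ d1 s t) ∧
      (∀ s, evn s → rQ m < di 0 s → di 0 s ≤ rQ m + 2 → ψ s = A s) ∧
      (∀ x, di 0 x ≤ 8000 → ψ (sm m x) = A (sm m x)) ∧ Mar m (ep / 4) ψ := by
  classical
  have hmR : (4000 : ℝ) ≤ m := by exact_mod_cast hm2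
  have hmZ : (4000 : ℤ) ≤ m := by exact_mod_cast hm2
  obtain ⟨a, ha⟩ : ∃ a : ℤ × ℤ → ℝ, a = fun x => A (sm m x) := ⟨_, rfl⟩
  have hav : ∀ x, a x = A (sm m x) := fun x => by rw [ha]
  have hkp : ∀ x y, di 0 x ≤ R0 → di 0 y ≤ R0 → |a x - a y| ≤ (1 - ep) * (2 * m) * d1 x y :=
    fun x y hx hy => kpath R0 _ a (by intro x y h1 h2 h3; rw [hav, hav]; exact hK x y h1 h2 h3) hx hy
  have h00 : di 0 ((0 : ℤ), (0 : ℤ)) ≤ R0 := by rw [de_di]; simp
  have h10 : di 0 ((1 : ℤ), (0 : ℤ)) ≤ R0 := by rw [de_di, R0]; norm_num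
  obtain ⟨σ, hσ⟩ : ∃ σ : ℝ, σ = (a (1, 0) - a (0, 0)) / (2 * m) := ⟨_, rfl⟩
  have hσ1 : |σ| ≤ 1 - ep := by
    have h := hkp (1, 0) (0, 0) h10 h00
    have h1 : d1 ((1 : ℤ), (0 : ℤ)) (0, 0) = 1 := by simp [d1]
    rw [h1] at h
    rw [hσ, abs_div, abs_of_pos (by linarith : (0 : ℝ) < 2 * m), div_le_iff₀ (by linarith)]
    simpa using h
  obtain ⟨P, hP⟩ := profile m hm (a (0, 0)) σ hσ1
  have ha1 : a (1, 0) = a (0, 0) + 2 * m * σ := by
    rw [hσ]
    field_simp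
    ring
  -- the lattice, the ring and the strip
  obtain ⟨strip, hstrip⟩ : ∃ T : Set (ℤ × ℤ), T = {s : ℤ × ℤ | (0 : ℤ) ≤ s.1 ∧
    s.1 ≤ 2 * (m : ℤ) ∧ |s.2| ≤ 1} :=
    ⟨_, rfl⟩
  obtain ⟨O, hO⟩ : ∃ T : Set (ℤ × ℤ), T = {s | (evn s ∧ rQ m < di 0 s ∧ di 0 s ≤ rQ m + 2) ∨
    ∃ x, di 0 x ≤ 8000 ∧ s = sm m x} := ⟨_, rfl⟩
  have hev : ∀ x : ℤ × ℤ, evn (sm m x) := fun x =>
    ⟨m * x.1 + m * x.2, by simp only [sm]; ring⟩
  have hOev : ∀ s ∈ O, evn s := by
    intro s hs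
    rw [hO] at hs
    rcases hs with hs | ⟨x, -, rfl⟩
    · exact hs.1
    · exact hev x
  have hOs : ∀ s ∈ O, s ∈ strip → P s.1 = A s := by
    intro s hs hs2
    rw [hO] at hs
    rw [hstrip] at hs2
    obtain ⟨g1, g2, g3⟩ := hs2
    rcases hs with ⟨-, hs, -⟩ | ⟨x, -, rfl⟩
    · exfalso
      refine absurd hs (not_lt.2 ((de_di s _).2 ?_))
      rw [rQ]
      push_cast
      rw [abs_of_nonneg g1]
      constructor <;> linarith
    · simp only [sm] at g1 g2 g3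
      have hx2 : x.2 = 0 := by
        by_contra hne
        have h1 : 1 ≤ |x.2| := Int.one_le_abs hne
        rw [abs_mul, abs_of_pos (by linarith : (0 : ℤ) < 2 * m)] at g3
        nlinarith
      have hx0 : 0 ≤ x.1 := by
        by_contra hne
        push Not at hne
        nlinarith
      have hx1 : x.1 ≤ 1 := by
        by_contra hne
        push Not at hne
        nlinarith
      rcases (by omega : x.1 = 0 ∨ x.1 = 1) with h | h
      · have hx : x = (0, 0) := Prod.ext h hx2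
        rw [hx, ← hav]
        simp only [sm, mul_zero]
        exact hP.zero
      · have hx : x = (1, 0) := Prod.ext h hx2
        rw [hx, ← hav, ha1]
        simp only [sm, mul_one]
        exact hP.last
  have hmix : ∀ s ∈ O, ∀ t ∈ strip, |A s - P t.1| ≤ d1 s t := by
    intro s hs t ht
    rw [hO] at hs
    rw [hstrip] at ht
    obtain ⟨g1, g2, g3⟩ := ht
    rcases hs with ⟨hs1, hs2, hs3⟩ | ⟨x, hx, rfl⟩
    · obtain ⟨x1, hx1⟩ := de_near (show 1 ≤ m by omega) s.1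
      obtain ⟨x2, hx2⟩ := de_near (show 1 ≤ m by omega) s.2
      rw [de_di] at hs3
      have e1 : ∀ y z : ℤ, |y - 2 * m * z| ≤ m → |y| ≤ ((rQ m + 2 : ℕ) : ℤ) → |z| ≤ 8001 := by
        intro y z h1 h2
        rw [rQ] at h2
        push_cast at h2
        rw [abs_le] at h1 h2 ⊢
        constructor
        · by_contra hcon
          push Not at hcon
          nlinarith [h1.1, h1.2, h2.1, h2.2]
        · by_contra hcon
          push Not at hcon
          nlinarith [h1.1, h1.2, h2.1, h2.2]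
      have hxR : di 0 (x1, x2) ≤ R0 := by
        rw [de_di, R0]
        have := e1 _ _ hx1 hs3.1
        have := e1 _ _ hx2 hs3.2
        push_cast
        constructor <;> linarith
      have hd : d1 s (sm m (x1, x2)) ≤ 2 * m := by
        simp only [d1, sm]
        linarith
      have hb : |A s - a (x1, x2)| ≤ 2 * m := by
        rw [hav]
        refine (hA _ _ hs1 (hev _)).trans ?_
        exact_mod_cast hd
      exact strip_far m hm2 a P σ hP ha1 (x1, x2) (hkp _ _ hxR h00) (hkp _ _ hxR h10) t.1 t.2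
        g1 g2 g3 s (A s) hs2 hd hb
    · have hxR : di 0 x ≤ R0 := hx.trans (by rw [R0]; norm_num)
      have h := strip_K m hm2 a P σ hP ha1 x (hkp _ _ hxR h00) (hkp _ _ hxR h10) t.1 t.2 g1 g2 g3
      rw [hav] at h
      exact h
  -- the data
  obtain ⟨f, hf⟩ : ∃ f : ℤ × ℤ → ℝ, f = fun s => if s ∈ strip then P s.1 else A s := ⟨_, rfl⟩
  have hfs : ∀ s ∈ strip, f s = P s.1 := by
    intro s hs
    rw [hf]
    exact if_pos hs
  have hfO : ∀ s ∈ O, f s = A s := by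
    intro s hs
    by_cases h : s ∈ strip
    · rw [hfs s h, hOs s hs h]
    · rw [hf]
      exact if_neg h
  obtain ⟨ψ, h1, h2⟩ := mcshane (strip ∪ O) f (by
    rintro s (hs | hs) t (ht | ht)
    · rw [hfs s hs, hfs t ht]
      refine (hP.lip _ _).trans ?_
      have h : |s.1 - t.1| ≤ d1 s t := by
        rw [d1]
        have := abs_nonneg (s.2 - t.2)
        linarith
      have h' : ((|s.1 - t.1| : ℤ) : ℝ) ≤ ((d1 s t : ℤ) : ℝ) := by exact_mod_cast h
      refine le_trans (le_of_eq ?_) h'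
      push_cast
      rfl
    · rw [hfs s hs, hfO t ht, abs_sub_comm, de_symm]
      exact hmix t ht s hs
    · rw [hfO s hs, hfs t ht]
      exact hmix s hs t ht
    · rw [hfO s hs, hfO t ht]
      exact hA s t (hOev s hs) (hOev t ht))
  refine ⟨ψ, h1, ?_, ?_, ?_⟩
  · intro s g1 g2 g3
    have hs : s ∈ O := by
      rw [hO]
      exact Or.inl ⟨g1, g2, g3⟩
    rw [h2 s (Or.inr hs), hfO s hs]
  · intro x hx
    have hs : sm m x ∈ O := by
      rw [hO]
      exact Or.inr ⟨x, hx, rfl⟩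
    rw [h2 _ (Or.inr hs), hfO _ hs]
  · intro j hj
    have hv : ∀ s u : ℤ, 0 ≤ s → s ≤ 2 * m → |u| ≤ 1 → ψ (s, u) = P s := by
      intro s u g1 g2 g3
      have hs : ((s, u) : ℤ × ℤ) ∈ strip := by
        rw [hstrip]
        exact ⟨g1, g2, g3⟩
      rw [h2 _ (Or.inl hs), hfs _ hs]
    have hjZ : (j : ℤ) + 1 ≤ m := by exact_mod_cast hj
    have hj0 : (0 : ℤ) ≤ j := Int.natCast_nonneg j
    have v1 : ψ (2 * (j : ℤ) + 2, 0) = P (2 * j + 2) := hv _ _ (by linarith) (by linarith) (by simp)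
    have v0 : ψ (2 * (j : ℤ), 0) = P (2 * j) := hv _ _ (by linarith) (by linarith) (by simp)
    have v2 : ∀ u : ℤ, u = 1 ∨ u = -1 → ψ (2 * (j : ℤ) + 1, u) = P (2 * j + 1) := by
      intro u hu
      refine hv _ _ (by linarith) (by linarith) ?_
      rcases hu with rfl | rfl <;> simp
    rcases hP.slope j hj with h | h
    · left
      intro u hu
      rw [v1, v0, v2 u hu]
      exact ⟨h.2, h.1⟩
    · right
      intro u hu
      rw [v1, v0, v2 u hu]
      exact h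

end HK
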