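import Mathlib
import Pool.Agent.Lib_helper50.HK.DefsD

set_option autoImplicit false

namespace HK

open MeasureTheory QG

theorem rt_evn (i : Fin 4) {s : ℤ × ℤ} (hs : evn s) : evn (rt i s) := by
  obtain ⟨a, b⟩ := s
  unfold evn at hs ⊢
  rw [Int.even_iff] at hs ⊢
  have hs' : (a + b) % 2 = 0 := hs
  fin_cases i
  · show (-a + b) % 2 = 0
    omega
  · show (a + b) % 2 = 0
    omega
  · show (b + a) % 2 = 0
    omega
  · show (b + -a) % 2 = 0
    omega

theorem rt_d1 (i : Fin 4) (s t : ℤ × ℤ) : d1 (rt i s) (rt i t) = d1 s t := by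
  obtain ⟨a, b⟩ := s
  obtain ⟨c, d⟩ := t
  fin_cases i
  · show |-a - -c| + |b - d| = |a - c| + |b - d|
    rw [show -a - -c = -(a - c) by ring, abs_neg]
  · rfl
  · show |b - d| + |a - c| = |a - c| + |b - d|
    ring
  · show |b - d| + |-a - -c| = |a - c| + |b - d|
    rw [show -a - -c = -(a - c) by ring, abs_neg]
    ring

theorem rt_di (i : Fin 4) (s : ℤ × ℤ) : di 0 (rt i s) = di 0 s := by
  obtain ⟨a, b⟩ := s
  fin_cases i
  · show max (0 - -a).natAbs (0 - b).natAbs = max (0 - a).natAbs (0 - b).natAbs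
    omega
  · rfl
  · show max (0 - b).natAbs (0 - a).natAbs = max (0 - a).natAbs (0 - b).natAbs
    omega
  · show max (0 - b).natAbs (0 - -a).natAbs = max (0 - a).natAbs (0 - b).natAbs
    omega

theorem rt_surj (i : Fin 4) (s : ℤ × ℤ) : ∃ t, rt i t = s := by
  obtain ⟨a, b⟩ := s
  fin_cases i
  · refine ⟨(-a, b), Prod.ext ?_ rfl⟩
    show - -a = a
    ring
  · exact ⟨(a, b), rfl⟩
  · exact ⟨(b, a), rfl⟩
  · refine ⟨(-b, a), Prod.ext rfl ?_⟩
    show - -b = b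
    ring

theorem rt_sm (i : Fin 4) (m : ℕ) (x : ℤ × ℤ) : rt i (sm m x) = sm m (rt i x) := by
  obtain ⟨a, b⟩ := x
  fin_cases i
  · refine Prod.ext ?_ rfl
    show -(2 * m * a) = 2 * m * -a
    ring
  · rfl
  · rfl
  · refine Prod.ext rfl ?_
    show -(2 * m * a) = 2 * m * -a
    ring

theorem rt_nn (i : Fin 4) {x y : ℤ × ℤ} (h : nn x y) : nn (rt i x) (rt i y) := by
  have h1 := rt_d1 i x y
  unfold d1 at h1
  unfold nn at h ⊢
  rw [h1]
  exact h

theorem dh_es (n : ℕ) (z : Ev n) {s : ℤ × ℤ} (hs : evn s) :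
    (es n z s).1 = z.1 + ((s.1 : ZMod (2 * n)), (s.2 : ZMod (2 * n))) := by
  unfold evn at hs
  rw [Int.even_iff] at hs
  unfold es ch
  have e1 : (s.1 + s.2) / 2 + (s.1 - s.2) / 2 = s.1 := by omega
  have e2 : (s.1 + s.2) / 2 - (s.1 - s.2) / 2 = s.2 := by omega
  show z.1 + ((((s.1 + s.2) / 2 + (s.1 - s.2) / 2 : ℤ) : ZMod (2 * n)),
    (((s.1 + s.2) / 2 - (s.1 - s.2) / 2 : ℤ) : ZMod (2 * n))) = _
  rw [e1, e2]

theorem dh_dir (n : ℕ) (i : Fin 4) :
    dir n i = (((dz i).1 : ZMod (2 * n)), ((dz i).2 : ZMod (2 * n))) := by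
  fin_cases i <;> simp [dir, dz]

/-- if one corner of a cell has planar coordinates `s`, the others have `s - dz c + dz c'` -/
theorem cn_es (n : ℕ) {z : Ev n} {v : Od n} {c : Fin 4} {s : ℤ × ℤ} (hs : evn s)
    (h : cn n v c = es n z s) (c' : Fin 4) :
    evn (s - dz c + dz c') ∧ cn n v c' = es n z (s - dz c + dz c') := by
  have hev : evn (s - dz c + dz c') := by
    obtain ⟨a, b⟩ := s
    unfold evn at hs ⊢
    rw [Int.even_iff] at hs ⊢
    have hs' : (a + b) % 2 = 0 := hs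
    show (a - (dz c).1 + (dz c').1 + (b - (dz c).2 + (dz c').2)) % 2 = 0
    have h1 : ∀ c : Fin 4, ((dz c).1 + (dz c).2) % 2 = 1 := by decide
    have h2 := h1 c
    have h3 := h1 c'
    omega
  refine ⟨hev, Subtype.ext ?_⟩
  rw [dh_es n z hev]
  have h1 : v.1 + dir n c = z.1 + ((s.1 : ZMod (2 * n)), (s.2 : ZMod (2 * n))) := by
    have h2 := congrArg Subtype.val h
    rw [dh_es n z hs] at h2
    exact h2
  have h3 : v.1 = z.1 + ((s.1 : ZMod (2 * n)), (s.2 : ZMod (2 * n))) - dir n c := by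
    rw [← h1, add_sub_cancel_right]
  show v.1 + dir n c' = _
  rw [h3, dh_dir, dh_dir]
  refine Prod.ext ?_ ?_
  · show z.1.1 + (s.1 : ZMod (2 * n)) - ((dz c).1 : ZMod (2 * n)) + ((dz c').1 : ZMod (2 * n)) =
      z.1.1 + ((s.1 - (dz c).1 + (dz c').1 : ℤ) : ZMod (2 * n))
    push_cast
    ring
  · show z.1.2 + (s.2 : ZMod (2 * n)) - ((dz c).2 : ZMod (2 * n)) + ((dz c').2 : ZMod (2 * n)) =
      z.1.2 + ((s.2 - (dz c).2 + (dz c').2 : ℤ) : ZMod (2 * n))
    push_cast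
    ring

theorem dz_d1 (s : ℤ × ℤ) (c c' c'' : Fin 4) :
    d1 (s - dz c + dz c') (s - dz c + dz c'') ≤ 2 ∧ di 0 (s - dz c + dz c') ≤ di 0 s + 2 := by
  constructor
  · have h : ∀ c' c'' : Fin 4, |(dz c').1 - (dz c'').1| + |(dz c').2 - (dz c'').2| ≤ 2 := by
      decide
    show |s.1 - (dz c).1 + (dz c').1 - (s.1 - (dz c).1 + (dz c'').1)| +
      |s.2 - (dz c).2 + (dz c').2 - (s.2 - (dz c).2 + (dz c'').2)| ≤ 2
    have e1 : s.1 - (dz c).1 + (dz c').1 - (s.1 - (dz c).1 + (dz c'').1) =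
        (dz c').1 - (dz c'').1 := by ring
    have e2 : s.2 - (dz c).2 + (dz c').2 - (s.2 - (dz c).2 + (dz c'').2) =
        (dz c').2 - (dz c'').2 := by ring
    rw [e1, e2]
    exact h c' c''
  · have h : ∀ c c' : Fin 4, (-(dz c).1 + (dz c').1).natAbs ≤ 2 ∧
        (-(dz c).2 + (dz c').2).natAbs ≤ 2 := by decide
    obtain ⟨h1, h2⟩ := h c c'
    show max (0 - (s.1 - (dz c).1 + (dz c').1)).natAbs (0 - (s.2 - (dz c).2 + (dz c').2)).natAbs ≤
      max (0 - s.1).natAbs (0 - s.2).natAbs + 2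
    omega

theorem osc_le {t : Fin 4 → ℝ} (h : ∀ i j, t i - t j ≤ 2) : osc t ≤ 2 := by
  unfold osc
  obtain ⟨i, _, hi⟩ := Finset.exists_mem_eq_sup' Finset.univ_nonempty t
  obtain ⟨j, _, hj⟩ := Finset.exists_mem_eq_inf' Finset.univ_nonempty t
  rw [hi, hj]
  exact h i j

end HK
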