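import Mathlib
import Pool.Agent.Lib_helper50.HK.DefsD
import Pool.Agent.Lib_helper50.HK.W.de
import Pool.Agent.Lib_helper50.HK.W.df
import Pool.Agent.Lib_helper50.HK.W.dg
import Pool.Agent.Lib_helper50.HK.W.dh

set_option autoImplicit false

namespace HK

open MeasureTheory QG

theorem dj_di (s : ℤ × ℤ) (r : ℕ) : di 0 s ≤ r ↔ |s.1| ≤ r ∧ |s.2| ≤ r := by
  unfold di
  simp only [Prod.fst_zero, Prod.snd_zero, Int.abs_eq_natAbs]
  omega

theorem dj_add (k x : ℤ × ℤ) : di k (k + x) = di 0 x := by
  simp [di]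

theorem dj_nn (k : ℤ × ℤ) {x y : ℤ × ℤ} (h : nn x y) : nn (k + x) (k + y) := by
  simpa [nn] using h

theorem dj_osc {t : Fin 4 → ℝ} (h : osc t ≤ 2) (i j : Fin 4) : t i - t j ≤ 2 := by
  have h1 : t i ≤ Finset.univ.sup' Finset.univ_nonempty t :=
    Finset.le_sup' t (Finset.mem_univ i)
  have h2 : Finset.univ.inf' Finset.univ_nonempty t ≤ t j :=
    Finset.inf'_le t (Finset.mem_univ j)
  rw [osc] at h
  linarith

/-- the field with the pattern -/
theorem field_b {n m : ℕ} [NeZero n] (hn : 64 * m * (R0 + 10) ≤ n) (hm : Even m)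
    (hm2 : 4000 ≤ m) {k : ℤ × ℤ} (hk : k ∈ LamI n m R0) (i : Fin 4) {a : Ev n → ℝ}
    (ha : ∀ v, osc (loc (cn n) a v) ≤ 2) (hb : ¬ Bad n m a k) :
    ∃ b : Ev n → ℝ, (∀ y ∉ QN n m k, b y = a y) ∧ (∀ v, osc (loc (cn n) b v) ≤ 2) ∧
      Mar m (ep / 4) (fun s => b (es n (ke n m k) (rt i s))) := by
  classical
  have hm1 : 1 ≤ m := by omega
  obtain ⟨z, hz⟩ : ∃ z, z = ke n m k := ⟨_, rfl⟩
  obtain ⟨A, hA⟩ : ∃ A : ℤ × ℤ → ℝ, A = fun s => a (es n z (rt i s)) := ⟨_, rfl⟩
  have hAv : ∀ s, A s = a (es n z (rt i s)) := fun s => by rw [hA]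
  obtain ⟨ψ, h1, h2, h3, h4⟩ := planar m hm hm2 A (by
    intro s t hs ht
    rw [hAv, hAv]
    refine (lip_pos n ha z (rt_evn i hs) (rt_evn i ht)).trans ?_
    rw [rt_d1]) (by
    intro x y hxy hx hy
    rw [hAv, hAv, rt_sm, rt_sm, hz, es_ke, es_ke]
    by_contra hcon
    push Not at hcon
    refine hb ⟨hk, k + rt i x, k + rt i y, dj_nn k (rt_nn i hxy), ?_, ?_, hcon⟩
    · rw [dj_add, rt_di]; exact hx
    · rw [dj_add, rt_di]; exact hy)
  -- the field
  obtain ⟨b, hbd⟩ : ∃ b : Ev n → ℝ, b = fun y => if h : ∃ s, evn s ∧ di 0 s ≤ rQ m ∧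
    es n z (rt i s) = y then ψ (Classical.choose h) else a y := ⟨_, rfl⟩
  have hin : ∀ s, evn s → di 0 s ≤ rQ m → b (es n z (rt i s)) = ψ s := by
    intro s hs hs2
    have hex : ∃ s', evn s' ∧ di 0 s' ≤ rQ m ∧ es n z (rt i s') = es n z (rt i s) :=
      ⟨s, hs, hs2, rfl⟩
    have hc := Classical.choose_spec hex
    have he : rt i (Classical.choose hex) = rt i s :=
      es_inj hm1 hn (rt_evn i hc.1) (rt_evn i hs) (by rw [rt_di]; omega) (by rw [rt_di]; omega)
        hc.2.2
    have he2 : Classical.choose hex = s := by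
      have h := rt_d1 i (Classical.choose hex) s
      rw [he] at h
      simp only [d1, sub_self, abs_zero, add_zero] at h
      have g1 := abs_nonneg ((Classical.choose hex).1 - s.1)
      have g2 := abs_nonneg ((Classical.choose hex).2 - s.2)
      have g3 : |(Classical.choose hex).1 - s.1| = 0 := by omega
      have g4 : |(Classical.choose hex).2 - s.2| = 0 := by omega
      exact Prod.ext (sub_eq_zero.1 (abs_eq_zero.1 g3)) (sub_eq_zero.1 (abs_eq_zero.1 g4))
    rw [hbd]
    simp only
    rw [dif_pos hex, he2]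
  have hout : ∀ y, (∀ s, evn s → di 0 s ≤ rQ m → es n z (rt i s) ≠ y) → b y = a y := by
    intro y hy
    rw [hbd]
    simp only
    rw [dif_neg]
    rintro ⟨s, g1, g2, g3⟩
    exact hy s g1 g2 g3
  have hall : ∀ s, evn s → di 0 s ≤ rQ m + 2 → b (es n z (rt i s)) = ψ s := by
    intro s hs hs2
    by_cases h : di 0 s ≤ rQ m
    · exact hin s hs h
    · rw [h2 s hs (by omega) hs2, hAv]
      refine hout _ fun s' g1 g2 g3 => h ?_
      have he : rt i s' = rt i s :=
        es_inj hm1 hn (rt_evn i g1) (rt_evn i hs) (by rw [rt_di]; omega) (by rw [rt_di]; omega) g3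
      have := rt_di i s
      rw [← he, rt_di] at this
      omega
  refine ⟨b, ?_, ?_, ?_⟩
  · intro y hy
    by_cases h : ∃ s, evn s ∧ di 0 s ≤ rQ m ∧ es n z (rt i s) = y
    · obtain ⟨s, g1, g2, rfl⟩ := h
      have hex : ∃ x, s = sm m x := by
        by_contra hcon
        push Not at hcon
        refine hy ?_
        rw [QN, Finset.mem_filter]
        refine ⟨?_, rt i s, rt_evn i g1, by rw [rt_di]; exact g2, by rw [hz]⟩
        rw [hz]
        refine es_nonK hm1 hn hk (rt_evn i g1) (by rw [rt_di]; exact g2) ?_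
        intro x hx
        obtain ⟨t, ht⟩ := rt_surj i x
        rw [← ht, ← rt_sm] at hx
        refine hcon t ?_
        have h := rt_d1 i s (sm m t)
        rw [hx] at h
        simp only [d1, sub_self, abs_zero, add_zero] at h
        have g1 := abs_nonneg (s.1 - (sm m t).1)
        have g2 := abs_nonneg (s.2 - (sm m t).2)
        have g3 : |s.1 - (sm m t).1| = 0 := by omega
        have g4 : |s.2 - (sm m t).2| = 0 := by omega
        exact Prod.ext (sub_eq_zero.1 (abs_eq_zero.1 g3)) (sub_eq_zero.1 (abs_eq_zero.1 g4))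
      obtain ⟨x, rfl⟩ := hex
      rw [hin _ g1 g2, h3 x ?_, hAv]
      rw [dj_di, rQ] at g2
      rw [dj_di]
      simp only [sm] at g2
      have hmZ : (1 : ℤ) ≤ m := by exact_mod_cast hm1
      have key : ∀ w : ℤ, |2 * m * w| ≤ ((16000 * m : ℕ) : ℤ) → |w| ≤ ((8000 : ℕ) : ℤ) := by
        intro w hw
        push_cast at hw ⊢
        rw [abs_mul, abs_of_pos (by linarith : (0 : ℤ) < 2 * m)] at hw
        by_contra hcon
        push Not at hcon
        nlinarith
      exact ⟨key _ g2.1, key _ g2.2⟩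
    · push Not at h
      exact hout y h
  · intro v
    by_cases h : ∃ c s, evn s ∧ di 0 s ≤ rQ m ∧ es n z s = cn n v c
    · obtain ⟨c, s, g1, g2, g3⟩ := h
      refine osc_le fun i' j' => ?_
      have key : ∀ c', ∃ s', evn s' ∧ rt i s' = s - dz c + dz c' ∧ di 0 s' ≤ rQ m + 2 ∧
          cn n v c' = es n z (rt i s') := by
        intro c'
        obtain ⟨e1, e2⟩ := cn_es n g1 g3.symm c'
        obtain ⟨s', hs'⟩ := rt_surj i (s - dz c + dz c')
        obtain ⟨t', ht'⟩ : ∃ t', t' = s' := ⟨_, rfl⟩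
        have hd : di 0 s' ≤ rQ m + 2 := by
          rw [← rt_di i, hs']
          exact (dz_d1 s c c' c').2.trans (by omega)
        refine ⟨s', ?_, hs', hd, by rw [hs']; exact e2⟩
        rw [← hs'] at e1
        have : evn (rt i s') ↔ evn s' := by
          fin_cases i
          · simp only [rt, evn]
            constructor
            · intro h
              have h5 := h.add (even_two_mul s'.1)
              have : (![(-s'.1, s'.2), (s'.1, s'.2), (s'.2, s'.1), (s'.2, -s'.1)] (0 : Fin 4)).1 +
                (![(-s'.1, s'.2), (s'.1, s'.2), (s'.2, s'.1), (s'.2, -s'.1)] (0 : Fin 4)).2 +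
                2 * s'.1 = s'.1 + s'.2 := by
                simp
                ring
              rwa [← this]
            · intro h
              exact rt_evn 0 h
          · simp [rt, evn]
          · simp [rt, evn, add_comm]
          · constructor
            · intro h
              have h5 := h.add (even_two_mul s'.1)
              have : (rt 3 s').1 + (rt 3 s').2 + 2 * s'.1 = s'.1 + s'.2 := by
                simp [rt]
                ring
              rw [evn, ← this]
              exact h5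
            · intro h
              exact rt_evn 3 h
        exact this.1 e1
      obtain ⟨s1, a1, a2, a3, a4⟩ := key i'
      obtain ⟨s2, b1, b2, b3, b4⟩ := key j'
      simp only [loc]
      rw [a4, b4, hall s1 a1 a3, hall s2 b1 b3]
      have h5 := (abs_le.1 (h1 s1 s2)).2
      have h6 : d1 s1 s2 ≤ 2 := by
        rw [← rt_d1 i, a2, b2]
        exact (dz_d1 s c i' j').1
      have h7 : ((d1 s1 s2 : ℤ) : ℝ) ≤ 2 := by exact_mod_cast h6
      linarith
    · push Not at h
      have he : loc (cn n) b v = loc (cn n) a v := by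
        funext c
        simp only [loc]
        refine hout _ fun s g1 g2 => ?_
        exact h c (rt i s) (rt_evn i g1) (by rw [rt_di]; exact g2)
      rw [he]
      exact ha v
  · rw [← hz]
    have hmZ : (4000 : ℤ) ≤ m := by exact_mod_cast hm2
    intro j hj
    have hjZ : (j : ℤ) + 1 ≤ m := by exact_mod_cast hj
    have hj0 : (0 : ℤ) ≤ j := Int.natCast_nonneg j
    have hd : ∀ s u : ℤ, 0 ≤ s → s ≤ 2 * m → |u| ≤ 1 → di 0 (s, u) ≤ rQ m := by
      intro s u g1 g2 g3
      rw [dj_di, rQ]
      push_cast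
      rw [abs_of_nonneg g1]
      constructor <;> linarith
    have v1 : b (es n z (rt i (2 * (j : ℤ) + 2, 0))) = ψ (2 * (j : ℤ) + 2, 0) :=
      hin _ ⟨j + 1, by simp only; ring⟩ (hd _ _ (by linarith) (by linarith) (by simp))
    have v0 : b (es n z (rt i (2 * (j : ℤ), 0))) = ψ (2 * (j : ℤ), 0) :=
      hin _ ⟨j, by simp only; ring⟩ (hd _ _ (by linarith) (by linarith) (by simp))
    have v2 : ∀ u : ℤ, u = 1 ∨ u = -1 →
        b (es n z (rt i (2 * (j : ℤ) + 1, u))) = ψ (2 * (j : ℤ) + 1, u) := by
      intro u hu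
      refine hin _ ?_ (hd _ _ (by linarith) (by linarith) ?_)
      · rcases hu with rfl | rfl
        · exact ⟨j + 1, by simp only; ring⟩
        · exact ⟨j, by simp only; ring⟩
      · rcases hu with rfl | rfl <;> simp
    rcases h4 j hj with h | h
    · left
      intro u hu
      simp only
      rw [v1, v0, v2 u hu]
      exact h u hu
    · right
      intro u hu
      simp only
      rw [v1, v0, v2 u hu]
      exact h u hu

end HK
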