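import Mathlib
import Pool.Agent.Lib_helper50.HK.DefsD
import Pool.Agent.Lib_helper50.HK.W.df
import Pool.Agent.Lib_helper50.HK.W.dg
import Pool.Agent.Lib_helper50.HK.W.dh

set_option autoImplicit false

namespace HK

open MeasureTheory QG

theorem dk_key {n m : ℕ} [NeZero n] {k : ℤ × ℤ} (hk : k ∈ LamI n m R0) (i : Fin 4)
    {a b : Ev n → ℝ} (ha : ∀ v, osc (loc (cn n) a v) ≤ 2) (hb : ∀ v, osc (loc (cn n) b v) ≤ 2)
    (hab : ∀ y ∉ QN n m k, b y = a y) {η : ℝ} (hη : 0 ≤ η)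
    (hη2 : η * (32 * (2 * m + 1)) ≤ ep) {s u : ℤ} (hsu : evn (s, u)) (hs0 : 0 ≤ s)
    (hs : s ≤ 2 * m) (hu : |u| ≤ 1) :
    |η * (a (es n (ke n m k) (rt i (s, u))) - b (es n (ke n m k) (rt i (s, u))))| ≤ ep / 16 := by
  classical
  have h0 : evn ((0 : ℤ), (0 : ℤ)) := ⟨0, by simp⟩
  have hke : b (ke n m k) = a (ke n m k) := by
    refine hab _ fun hmem => ?_
    rw [QN, Finset.mem_filter, nonK, Finset.mem_filter] at hmem
    have h := hmem.1.2.2 (k + (0, 0)) (ke_mem hk (by simp [di]))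
    refine h ?_
    congr 1
    simp
  have hr0 : rt i ((0 : ℤ), (0 : ℤ)) = (0, 0) := by fin_cases i <;> simp [rt]
  have h1 := lip_pos n ha (ke n m k) (rt_evn i hsu) (rt_evn i h0)
  have h2 := lip_pos n hb (ke n m k) (rt_evn i hsu) (rt_evn i h0)
  rw [rt_d1, hr0, es_zero] at h1 h2
  rw [hke] at h2
  have hd : ((d1 (s, u) (0, 0) : ℤ) : ℝ) ≤ 2 * m + 1 := by
    have : d1 (s, u) (0, 0) ≤ 2 * m + 1 := by
      simp only [d1, sub_zero]
      rw [abs_of_nonneg hs0]
      linarith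
    exact_mod_cast this
  rw [abs_mul, abs_of_nonneg hη]
  have h3 : |a (es n (ke n m k) (rt i (s, u))) - b (es n (ke n m k) (rt i (s, u)))| ≤
      2 * (2 * m + 1) := by
    rw [abs_le] at h1 h2 ⊢
    constructor <;> linarith [h1.1, h1.2, h2.1, h2.2]
  have h4 := mul_le_mul_of_nonneg_left h3 hη
  linarith

/-- mixtures with a small weight `η` of another field keep the pattern -/
theorem mix_mar {n m : ℕ} [NeZero n] {k : ℤ × ℤ} (hk : k ∈ LamI n m R0) (i : Fin 4)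
    {a b : Ev n → ℝ} (ha : ∀ v, osc (loc (cn n) a v) ≤ 2) (hb : ∀ v, osc (loc (cn n) b v) ≤ 2)
    (hab : ∀ y ∉ QN n m k, b y = a y)
    (hM : Mar m (ep / 4) (fun s => b (es n (ke n m k) (rt i s)))) {η : ℝ} (hη : 0 ≤ η)
    (hη2 : η * (32 * (2 * m + 1)) ≤ ep) :
    Mar m (ep / 8) (fun s => η * a (es n (ke n m k) (rt i s)) +
      (1 - η) * b (es n (ke n m k) (rt i s))) := by
  intro j hj
  have hjZ : (j : ℤ) + 1 ≤ m := by exact_mod_cast hj
  have hj0 : (0 : ℤ) ≤ j := Int.natCast_nonneg j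
  have k1 := abs_le.1 (dk_key hk i ha hb hab hη hη2 (s := 2 * (j : ℤ) + 2) (u := 0)
    ⟨j + 1, by simp only; ring⟩ (by linarith) (by linarith) (by simp))
  have k0 := abs_le.1 (dk_key hk i ha hb hab hη hη2 (s := 2 * (j : ℤ)) (u := 0)
    ⟨j, by simp only; ring⟩ (by linarith) (by linarith) (by simp))
  have k2 : ∀ u : ℤ, u = 1 ∨ u = -1 → _ := fun u hu =>
    abs_le.1 (dk_key hk i ha hb hab hη hη2 (s := 2 * (j : ℤ) + 1) (u := u)
    (by
      rcases hu with rfl | rfl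
      · exact ⟨j + 1, by simp only; ring⟩
      · exact ⟨j, by simp only; ring⟩) (by linarith) (by linarith)
    (by rcases hu with rfl | rfl <;> simp))
  rcases hM j hj with h | h
  · left
    intro u hu
    have h1 := h u hu
    have h2 := k2 u hu
    simp only at h1 ⊢
    constructor
    · linarith [h1.1, h2.1, h2.2, k1.1, k1.2]
    · linarith [h1.2, h2.1, h2.2, k0.1, k0.2]
  · right
    intro u hu
    have h1 := h u hu
    have h2 := k2 u hu
    simp only at h1 ⊢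
    constructor
    · linarith [h1.1, h2.1, h2.2, k0.1, k0.2]
    · linarith [h1.2, h2.1, h2.2, k1.1, k1.2]

end HK
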