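import Mathlib
import Pool.Agent.Lib_helper50.HK.DefsD

set_option autoImplicit false

namespace HK

open MeasureTheory QG

theorem dl_max (t : Fin 4 → ℝ) (i : Fin 4) : t i ≤ Finset.univ.sup' Finset.univ_nonempty t :=
  Finset.le_sup' t (Finset.mem_univ i)

theorem dl_min (t : Fin 4 → ℝ) (i : Fin 4) : Finset.univ.inf' Finset.univ_nonempty t ≤ t i :=
  Finset.inf'_le t (Finset.mem_univ i)

theorem wh_mix {t t' : Fin 4 → ℝ} (ht : osc t' ≤ 2) {η : ℝ} (h0 : 0 ≤ η) (h1 : η ≤ 1) :
    η * wh t ≤ wh (fun i => η * t i + (1 - η) * t' i) := by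
  have h2 : 0 ≤ 1 - η := by linarith
  have hosc : osc (fun i => η * t i + (1 - η) * t' i) ≤ η * osc t + (1 - η) * osc t' := by
    have e1 : Finset.univ.sup' Finset.univ_nonempty (fun i => η * t i + (1 - η) * t' i) ≤
        η * Finset.univ.sup' Finset.univ_nonempty t +
          (1 - η) * Finset.univ.sup' Finset.univ_nonempty t' := by
      refine Finset.sup'_le _ _ fun i _ => ?_
      exact add_le_add (mul_le_mul_of_nonneg_left (dl_max t i) h0)
        (mul_le_mul_of_nonneg_left (dl_max t' i) h2)
    have e2 : η * Finset.univ.inf' Finset.univ_nonempty t +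
          (1 - η) * Finset.univ.inf' Finset.univ_nonempty t' ≤
        Finset.univ.inf' Finset.univ_nonempty (fun i => η * t i + (1 - η) * t' i) := by
      refine Finset.le_inf' _ _ fun i _ => ?_
      exact add_le_add (mul_le_mul_of_nonneg_left (dl_min t i) h0)
        (mul_le_mul_of_nonneg_left (dl_min t' i) h2)
    rw [osc, osc, osc]
    linarith
  have h3 := mul_le_mul_of_nonneg_left ht h2
  rw [wh, wh, mul_max_of_nonneg _ _ h0, mul_zero]
  exact max_le_max le_rfl (by linarith)

theorem dl_nonneg (t : Fin 4 → ℝ) : 0 ≤ wh t := le_max_left _ _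

theorem dl_card {n : ℕ} [NeZero n] (Q : Finset (Ev n)) :
    (Finset.univ.filter fun v : Od n => ∃ c, cn n v c ∈ Q).card ≤ 4 * Q.card := by
  classical
  have hsub : (Finset.univ.filter fun v : Od n => ∃ c, cn n v c ∈ Q) ⊆
      (Finset.univ : Finset (Fin 4)).biUnion fun c => Finset.univ.filter fun v => cn n v c ∈ Q := by
    intro v hv
    rw [Finset.mem_filter] at hv
    obtain ⟨c, hc⟩ := hv.2
    rw [Finset.mem_biUnion]
    exact ⟨c, Finset.mem_univ c, by rw [Finset.mem_filter]; exact ⟨Finset.mem_univ v, hc⟩⟩
  refine (Finset.card_le_card hsub).trans (Finset.card_biUnion_le.trans ?_)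
  have h1 : ∀ c ∈ (Finset.univ : Finset (Fin 4)),
      (Finset.univ.filter fun v : Od n => cn n v c ∈ Q).card ≤ Q.card := by
    intro c _
    refine Finset.card_le_card_of_injOn (fun v => cn n v c) ?_ ?_
    · intro v hv
      have hv' := Finset.mem_coe.1 hv
      rw [Finset.mem_filter] at hv'
      exact hv'.2
    · intro v _ w _ h
      have h' : (cn n v c).1 = (cn n w c).1 := congrArg Subtype.val h
      simp only [cn] at h'
      exact Subtype.ext (add_right_cancel h')
  refine (Finset.sum_le_sum h1).trans ?_
  simp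

/-- the density of mixtures; the factor counts the cells with a corner in `Q` -/
theorem fh_mix (n : ℕ) [NeZero n] {a b : Ev n → ℝ} {Q : Finset (Ev n)}
    (hab : ∀ y ∉ Q, b y = a y) (hb : ∀ v, osc (loc (cn n) b v) ≤ 2) {η : ℝ} (h0 : 0 ≤ η)
    (h1 : η ≤ 1) : η ^ (4 * Q.card) * fh n a ≤ fh n (fun y => η * a y + (1 - η) * b y) := by
  classical
  have hw : ∀ x : Ev n → ℝ, wt wh (cn n) 0 x = ∏ v, wh (loc (cn n) x v) := by
    intro x
    rw [wt]
    have : dot (0 : Ev n → ℝ) x = 0 := by simp [dot]
    rw [this, Real.exp_zero, mul_one]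
  have hprod : η ^ (4 * Q.card) * ∏ v, wh (loc (cn n) a v) ≤
      ∏ v, wh (loc (cn n) (fun y => η * a y + (1 - η) * b y) v) := by
    have e1 : ∀ v ∈ (Finset.univ : Finset (Od n)), (if ∃ c, cn n v c ∈ Q then η else 1) *
        wh (loc (cn n) a v) ≤ wh (loc (cn n) (fun y => η * a y + (1 - η) * b y) v) := by
      intro v _
      split_ifs with h
      · exact wh_mix (hb v) h0 h1
      · push Not at h
        rw [one_mul]
        refine le_of_eq ?_
        congr 1
        funext c
        simp only [loc]
        rw [hab _ (h c)]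
        ring
    have e2 := Finset.prod_le_prod (fun v _ => mul_nonneg (by split_ifs <;> linarith)
      (dl_nonneg (loc (cn n) a v))) e1
    rw [Finset.prod_mul_distrib, Finset.prod_ite] at e2
    simp only [Finset.prod_const, one_pow, mul_one] at e2
    refine le_trans ?_ e2
    refine mul_le_mul_of_nonneg_right ?_ (Finset.prod_nonneg fun v _ => dl_nonneg _)
    exact pow_le_pow_of_le_one h0 h1 (dl_card Q)
  have hZ : 0 ≤ Zt wh (cn n) (pp n) 0 := by
    rw [Zt]
    refine integral_nonneg fun x => ?_
    rw [hw]
    exact Finset.prod_nonneg fun v _ => dl_nonneg _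
  rw [fh, fh, ← mul_div_assoc, hw, hw]
  exact div_le_div_of_nonneg_right hprod hZ

theorem dl_osc_cont : Continuous osc := by
  unfold osc
  refine Continuous.sub ?_ ?_
  · exact Continuous.finset_sup'_apply _ fun i _ => continuous_apply i
  · exact Continuous.finset_inf'_apply _ fun i _ => continuous_apply i

theorem fh_cont (n : ℕ) [NeZero n] : Continuous (fh n) := by
  unfold fh
  refine Continuous.div_const ?_ _
  unfold wt
  refine Continuous.mul ?_ ?_
  · refine continuous_finsetProd _ fun v _ => ?_
    have h1 : Continuous fun a : Ev n → ℝ => loc (cn n) a v :=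
      continuous_pi fun c => continuous_apply _
    have h2 : Continuous wh := by
      unfold wh
      exact continuous_const.max (continuous_const.sub dl_osc_cont)
    exact h2.comp h1
  · refine Real.continuous_exp.comp ?_
    unfold dot
    exact continuous_finsetSum _ fun y _ => continuous_const.mul (continuous_apply y)

end HK
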