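import Mathlib
import Pool.Agent.Lib_helper50.HK.DefsD

set_option autoImplicit false

namespace HK

open MeasureTheory QG

variable {A : Type} [Fintype A] [DecidableEq A]

theorem dm_cv (S : Finset A) {F : (S → ℝ) → ENNReal} (hF : Measurable F) {η : ℝ} (hη : 0 < η)
    (v : S → ℝ) :
    ENNReal.ofReal (η ^ S.card) * ∫⁻ y : S → ℝ, F (η • y + v) = ∫⁻ y : S → ℝ, F y := by
  have h1 : ∫⁻ y : S → ℝ, F (η • y + v) = ∫⁻ y : S → ℝ, F (y + v)
      ∂(Measure.map (fun y : S → ℝ => η • y) volume) := by
    have hm : Measurable (fun y : S → ℝ => F (y + v)) := hF.comp (measurable_id.add_const v)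
    rw [lintegral_map hm (measurable_const_smul η)]
  rw [h1, Measure.map_addHaar_smul volume hη.ne', lintegral_smul_measure,
    lintegral_add_right_eq_self, Module.finrank_fintype_fun_eq_card, Fintype.card_coe,
    smul_eq_mul, ← mul_assoc]
  have hp : 0 < η ^ S.card := pow_pos hη _
  rw [abs_of_pos (inv_pos.mpr hp), ← ENNReal.ofReal_mul hp.le, mul_inv_cancel₀ hp.ne',
    ENNReal.ofReal_one, one_mul]

/-- contraction of the coordinates in `S` towards `b` -/
theorem lmg_scale {F G : (A → ℝ) → ENNReal} (hF : Measurable F) (S : Finset A) (x b : A → ℝ)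
    {η : ℝ} (hη : 0 < η) (c : ENNReal) (hb : ∀ i ∉ S, b i = x i)
    (h : ∀ y : A → ℝ, (∀ i ∉ S, y i = x i) → c * G y ≤ F (fun i => η * y i + (1 - η) * b i)) :
    ENNReal.ofReal (η ^ S.card) * c * lmg G S x ≤ lmg F S x := by
  have hF' : Measurable (fun y : S → ℝ => F (Function.updateFinset x S y)) :=
    hF.comp measurable_updateFinset
  have key := dm_cv S hF' hη (fun i : S => (1 - η) * b i)
  unfold lmg
  rw [← key, mul_assoc]
  refine mul_le_mul_right ?_ _
  refine (lintegral_const_mul_le _ _).trans (lintegral_mono fun y => ?_)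
  refine (h (Function.updateFinset x S y) ?_).trans (le_of_eq ?_)
  · intro i hi
    simp [Function.updateFinset, hi]
  · congr 1
    funext i
    by_cases hi : i ∈ S
    · simp [Function.updateFinset, hi]
    · simp only [Function.updateFinset, hi, dif_neg, not_false_iff]
      rw [hb i hi]
      ring

theorem lmg_tower {F G : (A → ℝ) → ENNReal} (hF : Measurable F) (hG : Measurable G)
    {S T : Finset A} (hST : S ⊆ T) (c : ENNReal) (x : A → ℝ)
    (h : ∀ y : A → ℝ, (∀ i ∉ T, y i = x i) → c * lmg G S y ≤ lmg F S y) :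
    c * lmg G T x ≤ lmg F T x := by
  have hu : ∀ H : (A → ℝ) → ENNReal, Measurable H → lmg H T x =
      ∫⁻ y : (T \ S : Finset A) → ℝ, lmg H S (Function.updateFinset x (T \ S) y) := by
    intro H hH
    have h1 := lmarginal_union (fun _ : A => (volume : Measure ℝ)) H hH
      (s := T \ S) (t := S) Finset.sdiff_disjoint
    rw [Finset.sdiff_union_of_subset hST] at h1
    exact congrFun h1 x
  rw [hu G hG, hu F hF]
  refine (lintegral_const_mul_le _ _).trans (lintegral_mono fun y => ?_)
  refine h _ ?_
  intro i hi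
  have hi2 : i ∉ T \ S := fun hh => hi (Finset.mem_sdiff.mp hh).1
  simp only [Function.updateFinset, hi2, dif_neg, not_false_iff]

end HK
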