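import Mathlib
import Pool.Agent.Lib_helper50.HK.DefsD
import Pool.Agent.Lib_helper50.HK.W.df
import Pool.Agent.Lib_helper50.HK.W.dg
import Pool.Agent.Lib_helper50.HK.W.di
import Pool.Agent.Lib_helper50.HK.W.dj
import Pool.Agent.Lib_helper50.HK.W.dk
import Pool.Agent.Lib_helper50.HK.W.dl
import Pool.Agent.Lib_helper50.HK.W.dm

set_option autoImplicit false

namespace HK

open MeasureTheory QG

theorem dz_bad {n m : ℕ} [NeZero n] {k : ℤ × ℤ} {a y : Ev n → ℝ}
    (hb : ¬ Bad n m a k) (h : ∀ z ∉ nonK n m, y z = a z) : ¬ Bad n m y k := by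
  rintro ⟨hk, k1, k2, h1, h2, h3, h4⟩
  apply hb
  refine ⟨hk, k1, k2, h1, h2, h3, ?_⟩
  have key : ∀ k' : ℤ × ℤ, di k k' ≤ R0 → y (ke n m k') = a (ke n m k') := by
    intro k' hk'
    apply h
    intro hn
    have hm : k' ∈ Lam n m := by
      have h5 : k + (k' - k) ∈ Lam n m := by
        refine ke_mem hk ?_
        unfold di at hk' ⊢
        have e1 : ((0 : ℤ × ℤ).1 - (k' - k).1).natAbs = (k.1 - k'.1).natAbs := by
          show (0 - (k'.1 - k.1)).natAbs = _
          congr 1
          ring
        have e2 : ((0 : ℤ × ℤ).2 - (k' - k).2).natAbs = (k.2 - k'.2).natAbs := by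
          show (0 - (k'.2 - k.2)).natAbs = _
          congr 1
          ring
        rw [e1, e2]
        exact hk'
      rwa [add_sub_cancel] at h5
    unfold nonK at hn
    exact (Finset.mem_filter.1 hn).2.2 k' hm rfl
  unfold Steep at h4 ⊢
  rwa [key k1 h2, key k2 h3] at h4

/-- **Part D** -/
theorem pat_bound (m : ℕ) (hm : Even m) (hm2 : 4000 ≤ m) : ∃ p0 : ℝ, 0 < p0 ∧
    ∀ (n : ℕ) [NeZero n], 64 * m * (R0 + 10) ≤ n →
    ∀ k ∈ LamI n m R0, ∀ (i : Fin 4) (a : Ev n → ℝ), a (pp n) = 0 → ¬ Bad n m a k →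
    ENNReal.ofReal p0 * lmg (fun x => ENNReal.ofReal (fh n x)) (nonK n m) a ≤
      lmg (fun x => ENNReal.ofReal (fh n x) * {x | Pat n m x k i}.indicator 1 x) (nonK n m) a := by
  have hm0 : (0 : ℝ) ≤ m := Nat.cast_nonneg m
  have hep : (0 : ℝ) < ep := by unfold ep; norm_num
  obtain ⟨η, hη⟩ : ∃ η : ℝ, η = ep / (32 * (2 * m + 1)) := ⟨_, rfl⟩
  have hη0 : 0 < η := by rw [hη]; positivity
  have hη1 : η ≤ 1 := by
    rw [hη, div_le_one (by positivity)]
    unfold ep
    linarith
  have hη2 : η * (32 * (2 * m + 1)) ≤ ep := by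
    rw [hη, div_mul_cancel₀]
    positivity
  refine ⟨η ^ (5 * (2 * rQ m + 1) ^ 2), by positivity, ?_⟩
  intro n _ hn k hk i a _ hb
  have hQ : QN n m k ⊆ nonK n m := by
    classical
    intro z hz
    rw [QN, Finset.mem_filter] at hz
    exact hz.1
  have hG : Measurable fun x : Ev n → ℝ => ENNReal.ofReal (fh n x) :=
    ENNReal.measurable_ofReal.comp (fh_cont n).measurable
  have hF : Measurable fun x : Ev n → ℝ => ENNReal.ofReal (fh n x) *
      {x | PatO n m x k i}.indicator 1 x :=
    hG.mul (measurable_one.indicator (pato_meas n m k i))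
  have h1 := lmg_tower hF hG hQ (ENNReal.ofReal (η ^ (5 * (2 * rQ m + 1) ^ 2))) a ?_
  · refine h1.trans ?_
    unfold lmg
    refine lintegral_mono fun z => ?_
    refine mul_le_mul_right ?_ _
    refine Set.indicator_le_indicator_of_subset (fun x hx => pato_pat hx) (fun _ => zero_le) _
  · intro y hy
    by_cases hex : ∃ y0 : Ev n → ℝ, (∀ j ∉ QN n m k, y0 j = y j) ∧ 0 < fh n y0
    · obtain ⟨y0, hy0, hpos⟩ := hex
      have hb0 : ¬ Bad n m y0 k := dz_bad hb fun z hz => by
        rw [hy0 z (fun h => hz (hQ h)), hy z hz]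
      obtain ⟨b, b1, b2, b3⟩ := field_b hn hm hm2 hk i (osc_of_pos n hpos) hb0
      have h2 := lmg_scale hF (G := fun x => ENNReal.ofReal (fh n x)) (QN n m k) y b hη0
        (ENNReal.ofReal (η ^ (4 * (QN n m k).card)))
        (fun z hz => by rw [b1 z hz, hy0 z hz]) ?_
      · refine le_trans ?_ h2
        refine mul_le_mul_left ?_ _
        rw [← ENNReal.ofReal_mul (by positivity), ← pow_add]
        refine ENNReal.ofReal_le_ofReal ?_
        refine pow_le_pow_of_le_one hη0.le hη1 ?_
        have := es_card n m k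
        omega
      · intro y1 hy1
        by_cases hp : 0 < fh n y1
        · have hab : ∀ z ∉ QN n m k, b z = y1 z := fun z hz => by
            rw [b1 z hz, hy0 z hz, hy1 z hz]
          have hM := mix_mar hk i (osc_of_pos n hp) b2 hab b3 hη0.le hη2
          have hP : PatO n m (fun z => η * y1 z + (1 - η) * b z) k i :=
            mar_pat (δ := ep / 8) (by positivity) hM
          have hf := fh_mix n hab b2 hη0.le hη1
          have e : {x | PatO n m x k i}.indicator (1 : (Ev n → ℝ) → ENNReal)
              (fun z => η * y1 z + (1 - η) * b z) = 1 := by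
            rw [Set.indicator_of_mem]
            · rfl
            · exact hP
          show ENNReal.ofReal (η ^ (4 * (QN n m k).card)) * ENNReal.ofReal (fh n y1) ≤
            ENNReal.ofReal (fh n (fun z => η * y1 z + (1 - η) * b z)) *
              {x | PatO n m x k i}.indicator 1 (fun z => η * y1 z + (1 - η) * b z)
          rw [e, mul_one, ← ENNReal.ofReal_mul (by positivity)]
          exact ENNReal.ofReal_le_ofReal hf
        · have e : ENNReal.ofReal (fh n y1) = 0 := ENNReal.ofReal_eq_zero.2 (not_lt.1 hp)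
          show ENNReal.ofReal (η ^ (4 * (QN n m k).card)) * ENNReal.ofReal (fh n y1) ≤ _
          rw [e, mul_zero]
          exact zero_le
    · have e : lmg (fun x : Ev n → ℝ => ENNReal.ofReal (fh n x)) (QN n m k) y = 0 := by
        unfold lmg
        rw [lintegral_congr (g := fun _ => 0), lintegral_zero]
        intro z
        refine ENNReal.ofReal_eq_zero.2 ?_
        by_contra hc
        refine hex ⟨_, fun j hj => ?_, not_le.1 hc⟩
        rw [Function.updateFinset_def]
        simp only [hj, dite_false]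
      rw [e, mul_zero]
      exact zero_le

end HK
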